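import Mathlib
import Pool.Agent.KS6_82.Att.Main

/-!
# Prime ideals of negligible polynomials and closed sets of dimension at most one
-/

set_option autoImplicit false

namespace Pool.Agent.KS6_82.Crv

open Filter Topology MvPolynomial Pool.Agent.KS6_82.Att

variable {M : ℕ}

attribute [local instance] MvPolynomial.gradedAlgebra

/-- the ideal generated by the forms of an ideal -/
noncomputable def hc (J : Ideal (MvPolynomial (Fin M) ℂ)) : Ideal (MvPolynomial (Fin M) ℂ) :=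
  (J.homogeneousCore (homogeneousSubmodule (Fin M) ℂ)).toIdeal

lemma hc_le (J : Ideal (MvPolynomial (Fin M) ℂ)) : hc J ≤ J := Ideal.toIdeal_homogeneousCore_le _ _

lemma hc_prime {J : Ideal (MvPolynomial (Fin M) ℂ)} (h : J.IsPrime) : (hc J).IsPrime :=
  h.homogeneousCore

lemma mem_hc {J : Ideal (MvPolynomial (Fin M) ℂ)} {g : MvPolynomial (Fin M) ℂ} {e : ℕ}
    (hg : g.IsHomogeneous e) (h : g ∈ J) : g ∈ hc J :=
  Ideal.mem_homogeneousCore_of_homogeneous_of_mem ⟨e, hg⟩ h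

lemma hc_mono {I J : Ideal (MvPolynomial (Fin M) ℂ)} (h : I ≤ J) : hc I ≤ hc J :=
  Ideal.homogeneousCore_mono _ h

lemma hc_induction {J : Ideal (MvPolynomial (Fin M) ℂ)} {p : MvPolynomial (Fin M) ℂ → Prop}
    (hp : ∀ (g : MvPolynomial (Fin M) ℂ) (e : ℕ), g.IsHomogeneous e → g ∈ J → p g)
    (h0 : p 0) (hadd : ∀ x y, p x → p y → p (x + y)) (hmul : ∀ a x, p x → p (a * x))
    {g : MvPolynomial (Fin M) ℂ} (hg : g ∈ hc J) : p g := by
  have h1 : hc J = Ideal.span ((↑) '' ((fun x : {x // SetLike.IsHomogeneousElem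
      (homogeneousSubmodule (Fin M) ℂ) x} => (x : MvPolynomial (Fin M) ℂ)) ⁻¹' J)) := rfl
  rw [h1] at hg
  induction hg using Submodule.span_induction with
  | mem x hx =>
    obtain ⟨⟨y, e, he⟩, hy, rfl⟩ := hx
    exact hp y e he hy
  | zero => exact h0
  | add x y _ _ hx hy => exact hadd x y hx hy
  | smul a x _ hx => exact hmul a x hx

lemma le_hc {I J : Ideal (MvPolynomial (Fin M) ℂ)} (S : Set (MvPolynomial (Fin M) ℂ))
    (hS : ∀ g ∈ S, ∃ e : ℕ, g.IsHomogeneous e) (hI : I = Ideal.span S) (h : I ≤ J) : I ≤ hc J := by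
  rw [hI, Ideal.span_le]
  intro g hg
  obtain ⟨e, he⟩ := hS g hg
  apply mem_hc he
  apply h
  rw [hI]
  exact Ideal.subset_span hg

lemma mz_prime (w : Fin M → ℂ) : (mz w).IsPrime := RingHom.ker_isPrime _

/-- evaluation of the homogeneous core of the ideal of a point is not the ideal -/
lemma hc_mz_ne {w : Fin M → ℂ} (hw : w ≠ 0) : hc (mz w) ≠ mz w := by
  obtain ⟨i, hi⟩ : ∃ i, w i ≠ 0 := by
    by_contra h
    push Not at h
    exact hw (funext h)
  intro h
  have h1 : (X i - C (w i) : MvPolynomial (Fin M) ℂ) ∈ hc (mz w) := by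
    rw [h]
    exact X_sub_mem_mz w i
  -- all elements of the core vanish on the line of `w`
  have h2 : ∀ g ∈ hc (mz w), eval ((0 : ℂ) • w) g = 0 := by
    intro g hg
    refine hc_induction (p := fun g => eval ((0 : ℂ) • w) g = 0) ?_ (by simp) ?_ ?_ hg
    · intro g e he hgm
      rw [eval_hom he, mem_mz.1 hgm, mul_zero]
    · intro x y hx hy
      rw [map_add, hx, hy, add_zero]
    · intro a x hx
      rw [map_mul, hx, mul_zero]
  have h3 := h2 _ h1
  simp at h3
  exact hi h3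

/-- The algebraic part: closed sets of dimension at most one. -/
theorem curve_lemma {S : Set (MvPolynomial (Fin M) ℂ)} (hS : ∀ g ∈ S, ∃ e : ℕ, g.IsHomogeneous e)
    (hdim : ringKrullDim (MvPolynomial (Fin M) ℂ ⧸ Ideal.span S) ≤ 2)
    {Z : ℕ → Fin M → ℂ} {G : Fin M → MvPolynomial (Fin M) ℂ} {D : ℕ}
    (hG : ∀ i, (G i).IsHomogeneous D) (hZ : ∀ n, Z (n + 1) = vl G (Z n))
    {J : Ideal (MvPolynomial (Fin M) ℂ)} (hJ : J.IsPrime) (hJs : ∀ h ∈ J, phi G h ∈ J)
    (hJne : ∀ h, h ∉ J → ∀ᶠ n in atTop, eval (Z n) h ≠ 0)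
    {w : Fin M → ℂ} (hw : w ≠ 0) (hJw : J ≤ mz w)
    (hns : ∃ (g : MvPolynomial (Fin M) ℂ) (e : ℕ), g.IsHomogeneous e ∧ eval w g = 0 ∧ g ∉ J) :
    (∀ᶠ n in atTop, ∀ h ∈ S, eval (Z n) h = 0) ∨ (∀ᶠ n in atTop, ¬ ∀ h ∈ S, eval (Z n) h = 0) := by
  classical
  set I := Ideal.span S with hI
  have hmem : ∀ n, (∀ h ∈ S, eval (Z n) h = 0) ↔ I ≤ mz (Z n) := by
    intro n
    rw [hI, Ideal.span_le]
    exact ⟨fun h x hx => mem_mz.2 (h x hx), fun h x hx => mem_mz.1 (h hx)⟩
  have hJh := hc_prime hJ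
  have hWh := hc_prime (mz_prime w)
  have hlt1 : hc J < hc (mz w) := by
    refine lt_of_le_of_ne (hc_mono hJw) ?_
    intro h
    obtain ⟨g, e, he, hg0, hgJ⟩ := hns
    apply hgJ
    apply hc_le
    rw [h]
    exact mem_hc he (mem_mz.2 hg0)
  have hlt2 : hc (mz w) < mz w := lt_of_le_of_ne (hc_le _) (hc_mz_ne hw)
  -- minimal primes contained in `J`
  have hmin : ∀ P ∈ I.minimalPrimes, P ≤ J → P = hc J := by
    intro P hP hPJ
    have hPp : P.IsPrime := hP.1.1
    have hIP : I ≤ P := hP.1.2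
    have h1 : I ≤ hc P := le_hc S hS hI hIP
    have h2 : P ≤ hc P := hP.2 ⟨hc_prime hPp, h1⟩ (hc_le P)
    have h3 : P ≤ hc J := h2.trans (hc_mono hPJ)
    by_contra hne
    have hlt0 : P < hc J := lt_of_le_of_ne h3 hne
    -- a chain of length three
    have hm1 : ∀ (Q : Ideal (MvPolynomial (Fin M) ℂ)) (hQ : Q.IsPrime), P ≤ Q →
        (⟨Q, hQ⟩ : PrimeSpectrum (MvPolynomial (Fin M) ℂ)) ∈ PrimeSpectrum.zeroLocus (I : Set _) := by
      intro Q hQ hPQ
      rw [PrimeSpectrum.mem_zeroLocus]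
      exact hIP.trans hPQ
    let p0 : PrimeSpectrum.zeroLocus (I : Set (MvPolynomial (Fin M) ℂ)) :=
      ⟨⟨P, hPp⟩, hm1 P hPp le_rfl⟩
    let p1 : PrimeSpectrum.zeroLocus (I : Set (MvPolynomial (Fin M) ℂ)) :=
      ⟨⟨hc J, hJh⟩, hm1 _ hJh hlt0.le⟩
    let p2 : PrimeSpectrum.zeroLocus (I : Set (MvPolynomial (Fin M) ℂ)) :=
      ⟨⟨hc (mz w), hWh⟩, hm1 _ hWh (hlt0.le.trans hlt1.le)⟩
    let p3 : PrimeSpectrum.zeroLocus (I : Set (MvPolynomial (Fin M) ℂ)) :=
      ⟨⟨mz w, mz_prime w⟩, hm1 _ _ (hlt0.le.trans (hlt1.le.trans hlt2.le))⟩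
    have h01 : p0 < p1 := hlt0
    have h12 : p1 < p2 := hlt1
    have h23 : p2 < p3 := hlt2
    let s : LTSeries (PrimeSpectrum.zeroLocus (I : Set (MvPolynomial (Fin M) ℂ))) :=
      (((RelSeries.singleton _ p0).snoc p1 (by simpa using h01)).snoc p2 (by simpa using h12)).snoc p3
        (by simpa using h23)
    have h4 : (s.length : WithBot ℕ∞) ≤ Order.krullDim
        (PrimeSpectrum.zeroLocus (I : Set (MvPolynomial (Fin M) ℂ))) := Order.LTSeries.length_le_krullDim s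
    rw [← ringKrullDim_quotient] at h4
    have h5 : s.length = 3 := rfl
    rw [h5] at h4
    have h6 := h4.trans hdim
    have h7 : ((3 : ℕ) : WithBot ℕ∞) ≤ ((2 : ℕ) : WithBot ℕ∞) := by exact_mod_cast h6
    norm_cast at h7
  -- eventually only one minimal prime matters
  have hfin : I.minimalPrimes.Finite := Ideal.finite_minimalPrimes_of_isNoetherianRing _ _
  have hev : ∀ᶠ n in atTop, ∀ P ∈ I.minimalPrimes, P ≤ mz (Z n) → P = hc J := by
    rw [hfin.eventually_all]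
    intro P hP
    by_cases hPJ : P ≤ J
    · filter_upwards with n _
      exact hmin P hP hPJ
    · obtain ⟨h, hhP, hhJ⟩ := SetLike.not_le_iff_exists.1 hPJ
      filter_upwards [hJne h hhJ] with n hn hPn
      exact absurd (mem_mz.1 (hPn hhP)) hn
  have hex : ∀ n, I ≤ mz (Z n) → ∃ P ∈ I.minimalPrimes, P ≤ mz (Z n) := by
    intro n hn
    have := mz_prime (Z n)
    exact Ideal.exists_minimalPrimes_le hn
  have hstep : ∀ n, hc J ≤ mz (Z n) → hc J ≤ mz (Z (n + 1)) := by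
    intro n hn h hh
    rw [mem_mz, hZ]
    have h1 : eval (vl G (Z n)) h = eval (Z n) (phi G h) := (eval_phi G (Z n) h).symm
    rw [h1, ← mem_mz]
    apply hn
    refine hc_induction (p := fun g => phi G g ∈ hc J) ?_ (by simp) ?_ ?_ hh
    · intro g e he hgJ
      exact mem_hc (he.aeval _ hG) (hJs g hgJ)
    · intro x y hx hy
      rw [map_add]
      exact Ideal.add_mem _ hx hy
    · intro a x hx
      rw [map_mul]
      exact Ideal.mul_mem_left _ _ hx
  simp_rw [hmem]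
  obtain ⟨n₀, hn₀⟩ := eventually_atTop.1 hev
  by_cases hc1 : ∃ n ≥ n₀, I ≤ mz (Z n)
  · left
    obtain ⟨n, hn, hIn⟩ := hc1
    obtain ⟨P, hP, hPn⟩ := hex n hIn
    have hPJ := hn₀ n hn P hP hPn
    rw [hPJ] at hPn
    have hIJ : I ≤ hc J := by
      rw [← hPJ]
      exact hP.1.2
    filter_upwards [eventually_ge_atTop n] with k hk
    refine hIJ.trans ?_
    induction k, hk using Nat.le_induction with
    | base => exact hPn
    | succ k _ ih => exact hstep k ih
  · right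
    push Not at hc1
    filter_upwards [eventually_ge_atTop n₀] with n hn
    exact hc1 n hn

end Pool.Agent.KS6_82.Crv
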