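import Mathlib
import Pool.Agent.KS6_82.Att.Main

/-!
# Endomorphisms for which zero is an eigenvalue of multiplicity at most one
-/

set_option autoImplicit false

namespace Pool.Agent.KS6_82.Crv

open Polynomial

variable {M : ℕ}

/-- zero is an eigenvalue of multiplicity at most one (a splitting of the space) -/
def SZ (T : Module.End ℂ (Fin M → ℂ)) : Prop :=
  ∃ (q : (Fin M → ℂ) →ₗ[ℂ] ℂ) (e₀ : Fin M → ℂ) (S : Module.End ℂ (Fin M → ℂ)),
    (∀ w, w = q w • e₀ + S (T w)) ∧ ∀ w, q (T w) = 0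

theorem sz_of_mult {T : Module.End ℂ (Fin M → ℂ)} (hT : T.charpoly.rootMultiplicity 0 ≤ 1) : SZ T := by
  have hP0 : T.charpoly ≠ 0 := T.charpoly_monic.ne_zero
  obtain ⟨Q, hQ, hQ0⟩ := Polynomial.exists_eq_pow_rootMultiplicity_mul_and_not_dvd T.charpoly hP0 0
  set k := T.charpoly.rootMultiplicity 0 with hk
  rw [map_zero, sub_zero] at hQ hQ0
  have hc : Q.coeff 0 ≠ 0 := by
    intro h
    exact hQ0 (Polynomial.X_dvd_iff.2 h)
  set c := Q.coeff 0 with hcdef
  have hXQ : aeval T (X * Q) = 0 := by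
    have h1 : (X : ℂ[X]) * Q = X ^ (1 - k) * T.charpoly := by
      conv_rhs => rw [hQ]
      rw [← mul_assoc, ← pow_add, Nat.sub_add_cancel hT, pow_one]
    rw [h1, map_mul, LinearMap.aeval_self_charpoly, mul_zero]
  have hTQ : T * aeval T Q = 0 := by rwa [map_mul, aeval_X] at hXQ
  have hQT : aeval T Q * T = 0 := by
    rw [mul_comm, map_mul, aeval_X] at hXQ
    exact hXQ
  -- the projection
  have hdec : ∀ w, c • w = aeval T Q w - aeval T Q.divX (T w) := by
    intro w
    have h1 : aeval T (Q.divX * X + C c) w = aeval T Q w := by rw [hcdef, Polynomial.divX_mul_X_add]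
    rw [map_add, map_mul, aeval_X, aeval_C, LinearMap.add_apply, Module.End.mul_apply,
      Module.algebraMap_end_apply] at h1
    rw [← h1]
    abel
  have hker : ∀ w, T (aeval T Q w) = 0 := fun w => by
    have := LinearMap.congr_fun hTQ w
    exact this
  have hfin : Module.finrank ℂ (LinearMap.ker T) ≤ 1 := by
    have h1 := LinearMap.finrank_eigenspace_le T (0 : ℂ)
    rw [Module.End.eigenspace_zero] at h1
    exact h1.trans hT
  obtain ⟨e, he⟩ := finrank_le_one_iff.1 hfin
  by_cases he0 : (e : Fin M → ℂ) = 0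
  · refine ⟨0, 0, -(c⁻¹ • aeval T Q.divX), fun w => ?_, fun w => rfl⟩
    have h1 : aeval T Q w = 0 := by
      obtain ⟨a, ha⟩ := he ⟨aeval T Q w, hker w⟩
      have h2 := congrArg (Subtype.val) ha
      simp only [Submodule.coe_smul, he0, smul_zero] at h2
      exact h2.symm
    have h2 := hdec w
    rw [h1, zero_sub] at h2
    rw [LinearMap.zero_apply, zero_smul, zero_add, LinearMap.neg_apply, LinearMap.smul_apply,
      ← smul_neg, ← h2, smul_smul, inv_mul_cancel₀ hc, one_smul]
  · obtain ⟨i, hi⟩ : ∃ i, (e : Fin M → ℂ) i ≠ 0 := by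
      by_contra h
      push Not at h
      exact he0 (funext h)
    refine ⟨((e : Fin M → ℂ) i)⁻¹ • (LinearMap.proj i ∘ₗ (c⁻¹ • aeval T Q)), e,
      -(c⁻¹ • aeval T Q.divX), fun w => ?_, fun w => ?_⟩
    · obtain ⟨a, ha⟩ := he ⟨aeval T Q w, hker w⟩
      have h2 := congrArg (Subtype.val) ha
      simp only [Submodule.coe_smul] at h2
      have h3 : (((e : Fin M → ℂ) i)⁻¹ • (LinearMap.proj i ∘ₗ (c⁻¹ • aeval T Q))) w = c⁻¹ * a := by
        simp only [LinearMap.smul_apply, LinearMap.comp_apply, LinearMap.proj_apply, ← h2,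
          Pi.smul_apply, smul_eq_mul]
        field_simp
      rw [h3, mul_smul, h2, LinearMap.neg_apply, LinearMap.smul_apply, ← sub_eq_add_neg, ← smul_sub,
        ← hdec, smul_smul, inv_mul_cancel₀ hc, one_smul]
    · have h1 : aeval T Q (T w) = 0 := by
        have := LinearMap.congr_fun hQT w
        exact this
      simp only [LinearMap.smul_apply, LinearMap.comp_apply, h1, smul_zero, map_zero]

lemma SZ.pow {T : Module.End ℂ (Fin M → ℂ)} (h : SZ T) {p : ℕ} (hp : 1 ≤ p) : SZ (T ^ p) := by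
  obtain ⟨q, e, S, h1, h2⟩ := h
  refine ⟨q, e, S ^ p, fun w => ?_, fun w => ?_⟩
  · obtain ⟨k, rfl⟩ := Nat.exists_eq_add_of_le' hp
    clear hp
    induction k with
    | zero => simpa using h1 w
    | succ k ih =>
      have h3 : (T ^ (k + 1)) w = S (T ((T ^ (k + 1)) w)) := by
        have h4 := h1 ((T ^ (k + 1)) w)
        have h5 : q ((T ^ (k + 1)) w) = 0 := by
          rw [pow_succ']
          exact h2 _
        rwa [h5, zero_smul, zero_add] at h4
      rw [pow_succ S (k + 1), pow_succ' T (k + 1)]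
      simp only [Module.End.mul_apply]
      rw [← h3]
      exact ih
  · obtain ⟨k, rfl⟩ := Nat.exists_eq_add_of_le' hp
    rw [pow_succ']
    exact h2 _

end Pool.Agent.KS6_82.Crv
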