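import Mathlib
import Pool.Agent.KS6_82.Crv.Alg
import Pool.Agent.KS6_82.Crv.Lin

/-!
# Orbits which converge superexponentially along a simple zero eigenvalue
-/

set_option autoImplicit false

namespace Pool.Agent.KS6_82.Crv

open Filter Topology MvPolynomial Pool.Agent.KS6_82.Att Asymptotics

variable {M : ℕ}

/-! ### Expansions in a small scalar sequence -/

/-- polynomial expansions in `Q` of order `k` -/
def QE (Q : ℕ → ℂ) (k : ℕ) (u : ℕ → ℂ) : Prop :=
  ∃ P : Polynomial ℂ, (fun n => u n - P.eval (Q n)) =O[atTop] fun n => Q n ^ k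

section expansions

variable {Q : ℕ → ℂ}

lemma o_pow_mono (hQ : Tendsto Q atTop (𝓝 0)) {k l : ℕ} (h : k ≤ l) :
    (fun n => Q n ^ l) =O[atTop] fun n => Q n ^ k := by
  obtain ⟨j, rfl⟩ := Nat.exists_eq_add_of_le h
  have h1 : (fun n => Q n ^ j) =O[atTop] fun _ => (1 : ℂ) := (hQ.pow j).isBigO_one ℂ
  have h2 := (isBigO_refl (fun n => Q n ^ k) atTop).mul h1
  simpa [pow_add] using h2

lemma o_mul_pow {u v : ℕ → ℂ} {k l : ℕ} (hu : u =O[atTop] fun n => Q n ^ k)
    (hv : v =O[atTop] fun n => Q n ^ l) : (fun n => u n * v n) =O[atTop] fun n => Q n ^ (k + l) := by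
  have := hu.mul hv
  simpa [pow_add] using this

lemma poly_bdd (hQ : Tendsto Q atTop (𝓝 0)) (P : Polynomial ℂ) :
    (fun n => P.eval (Q n)) =O[atTop] fun _ => (1 : ℂ) := by
  have h1 := (P.continuous.tendsto 0).comp hQ
  exact h1.isBigO_one ℂ

lemma QE.of_o {k : ℕ} {u : ℕ → ℂ} (h : u =O[atTop] fun n => Q n ^ k) : QE Q k u :=
  ⟨0, by simpa using h⟩

lemma QE.bdd (hQ : Tendsto Q atTop (𝓝 0)) {k : ℕ} {u : ℕ → ℂ} (h : QE Q k u) :
    u =O[atTop] fun _ => (1 : ℂ) := by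
  obtain ⟨P, hP⟩ := h
  have h1 : (fun n => Q n ^ k) =O[atTop] fun _ => (1 : ℂ) := (hQ.pow k).isBigO_one ℂ
  have h2 := (hP.trans h1).add (poly_bdd hQ P)
  simpa using h2

lemma QE.const (k : ℕ) (a : ℂ) : QE Q k fun _ => a := by
  refine ⟨Polynomial.C a, ?_⟩
  simp only [Polynomial.eval_C, sub_self]
  exact isBigO_zero _ _

lemma QE.self (k : ℕ) : QE Q k Q := by
  refine ⟨Polynomial.X, ?_⟩
  simp only [Polynomial.eval_X, sub_self]
  exact isBigO_zero _ _

lemma QE.add {k : ℕ} {u v : ℕ → ℂ} (hu : QE Q k u) (hv : QE Q k v) : QE Q k fun n => u n + v n := by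
  obtain ⟨P, hP⟩ := hu
  obtain ⟨R, hR⟩ := hv
  refine ⟨P + R, ?_⟩
  have h1 := hP.add hR
  refine h1.congr_left fun n => ?_
  rw [Polynomial.eval_add]
  ring

lemma QE.smul {k : ℕ} {u : ℕ → ℂ} (hu : QE Q k u) (a : ℂ) : QE Q k fun n => a * u n := by
  obtain ⟨P, hP⟩ := hu
  refine ⟨Polynomial.C a * P, ?_⟩
  have h1 := hP.const_mul_left a
  refine h1.congr_left fun n => ?_
  rw [Polynomial.eval_mul, Polynomial.eval_C]
  ring

lemma QE.sub {k : ℕ} {u v : ℕ → ℂ} (hu : QE Q k u) (hv : QE Q k v) : QE Q k fun n => u n - v n := by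
  have := hu.add (hv.smul (-1))
  convert this using 1
  funext n
  ring

lemma QE.mono (hQ : Tendsto Q atTop (𝓝 0)) {k l : ℕ} (h : k ≤ l) {u : ℕ → ℂ} (hu : QE Q l u) :
    QE Q k u := by
  obtain ⟨P, hP⟩ := hu
  exact ⟨P, hP.trans (o_pow_mono hQ h)⟩

lemma QE.mul (hQ : Tendsto Q atTop (𝓝 0)) {k : ℕ} {u v : ℕ → ℂ} (hu : QE Q k u) (hv : QE Q k v) :
    QE Q k fun n => u n * v n := by
  have hvb := hv.bdd hQ
  obtain ⟨P, hP⟩ := hu
  obtain ⟨R, hR⟩ := hv
  refine ⟨P * R, ?_⟩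
  have h1 := hP.mul hvb
  have h2 := (poly_bdd hQ P).mul hR
  simp only [mul_one] at h1
  simp only [one_mul] at h2
  refine (h1.add h2).congr_left fun n => ?_
  rw [Polynomial.eval_mul]
  ring

lemma QE.fsum {ι : Type} (s : Finset ι) {k : ℕ} (u : ι → ℕ → ℂ) (h : ∀ i ∈ s, QE Q k (u i)) :
    QE Q k fun n => ∑ i ∈ s, u i n := by
  classical
  induction s using Finset.induction_on with
  | empty => simpa using QE.const k 0
  | insert a s ha ih =>
    simp_rw [Finset.sum_insert ha]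
    exact (h a (Finset.mem_insert_self _ _)).add (ih fun i hi => h i (Finset.mem_insert_of_mem hi))

/-- the product of two small sequences -/
lemma QE.mul_small {k : ℕ} (hk : 1 ≤ k) (hQ : Tendsto Q atTop (𝓝 0)) {u v : ℕ → ℂ}
    (hu : QE Q k u) (hv : QE Q k v)
    (hu' : u =O[atTop] Q) (hv' : v =O[atTop] Q) : QE Q (k + 1) fun n => u n * v n := by
  obtain ⟨P, hP⟩ := hu
  obtain ⟨R, hR⟩ := hv
  refine ⟨P * R, ?_⟩
  have hQ1 : (fun n => Q n ^ k) =O[atTop] Q := by
    have := o_pow_mono hQ hk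
    simpa using this
  have hP' : (fun n => P.eval (Q n)) =O[atTop] Q := by
    have h1 := hu'.sub (hP.trans hQ1)
    simpa using h1
  have h1 := (hP.mul hv').add (hR.mul hP')
  refine (h1.congr_left fun n => ?_).congr_right fun n => ?_
  · rw [Polynomial.eval_mul]
    ring
  · rw [pow_succ]

lemma QE.comp_poly (hQ : Tendsto Q atTop (𝓝 0)) {k : ℕ} {u : ℕ → ℂ} (hu : QE Q k u)
    (P : Polynomial ℂ) : QE Q k fun n => P.eval (u n) := by
  induction P using Polynomial.induction_on' with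
  | add p q hp hq =>
    have := hp.add hq
    convert this using 1
    funext n
    rw [Polynomial.eval_add]
  | monomial j a =>
    simp only [Polynomial.eval_monomial]
    apply QE.smul
    induction j with
    | zero => simpa using QE.const k 1
    | succ j ih =>
      simp_rw [pow_succ]
      exact ih.mul hQ hu

/-- the shift of an expansion -/
lemma QE.shift (hQ : Tendsto Q atTop (𝓝 0)) (hQ2 : (fun n => Q (n + 1)) =O[atTop] fun n => Q n ^ 2)
    {k : ℕ} (hk : 1 ≤ k) {u : ℕ → ℂ} (hu : QE Q k u) (hQs : QE Q (k + 1) fun n => Q (n + 1)) :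
    QE Q (k + 1) fun n => u (n + 1) := by
  obtain ⟨P, hP⟩ := hu
  have h1 : (fun n => u (n + 1) - P.eval (Q (n + 1))) =O[atTop] fun n => Q (n + 1) ^ k :=
    hP.comp_tendsto (tendsto_add_atTop_nat 1)
  have h2 : (fun n => Q (n + 1) ^ k) =O[atTop] fun n => Q n ^ (k + 1) := by
    have h3 := hQ2.pow k
    simp_rw [← pow_mul] at h3
    exact h3.trans (o_pow_mono hQ (by omega))
  have h3 := (QE.of_o (h1.trans h2)).add (hQs.comp_poly hQ P)
  convert h3 using 1
  funext n
  ring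

/-- dichotomy -/
lemma q_dichotomy (hQ : Tendsto Q atTop (𝓝 0)) (hQ0 : ∀ᶠ n in atTop, Q n ≠ 0) {u : ℕ → ℂ}
    (hu : ∀ k, QE Q k u) : (∀ k : ℕ, u =O[atTop] fun n => Q n ^ k) ∨
      ∃ (j : ℕ) (c : ℝ), 0 < c ∧ ∀ᶠ n in atTop, c * ‖Q n‖ ^ j ≤ ‖u n‖ := by
  by_cases h : ∀ k : ℕ, u =O[atTop] fun n => Q n ^ k
  · exact Or.inl h
  · right
    push Not at h
    obtain ⟨k, hk⟩ := h
    obtain ⟨P, hP⟩ := hu k
    have hP0 : P ≠ 0 := by
      rintro rfl
      apply hk
      simpa using hP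
    obtain ⟨R, hR, hR0⟩ := Polynomial.exists_eq_pow_rootMultiplicity_mul_and_not_dvd P hP0 0
    set j := P.rootMultiplicity 0 with hj
    rw [map_zero, sub_zero] at hR hR0
    have hc : R.eval 0 ≠ 0 := by
      rw [← Polynomial.coeff_zero_eq_eval_zero]
      intro h
      exact hR0 (Polynomial.X_dvd_iff.2 h)
    have hjk : j < k := by
      by_contra hjk
      rw [not_lt] at hjk
      apply hk
      have h1 : (fun n => P.eval (Q n)) =O[atTop] fun n => Q n ^ k := by
        have h2 := ((isBigO_refl (fun n => Q n ^ j) atTop).mul (poly_bdd hQ R))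
        have h3 : (fun n => P.eval (Q n)) = fun n => Q n ^ j * R.eval (Q n) := by
          funext n
          rw [hR, Polynomial.eval_mul, Polynomial.eval_pow, Polynomial.eval_X]
        rw [h3]
        refine h2.trans ?_
        simpa using o_pow_mono hQ hjk
      have h4 := hP.add h1
      simpa using h4
    have hlim : Tendsto (fun n => ‖R.eval (Q n)‖) atTop (𝓝 ‖R.eval 0‖) :=
      ((R.continuous.tendsto 0).comp hQ).norm
    have hcp : 0 < ‖R.eval 0‖ := norm_pos_iff.2 hc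
    obtain ⟨C, hC⟩ := hP.bound
    have hsm : Tendsto (fun n => C * ‖Q n‖ ^ (k - j)) atTop (𝓝 0) := by
      have h1 := (hQ.norm.pow (k - j)).const_mul C
      rw [norm_zero, zero_pow (by omega), mul_zero] at h1
      exact h1
    refine ⟨j, ‖R.eval 0‖ / 4, by positivity, ?_⟩
    filter_upwards [hlim.eventually_const_lt (show ‖R.eval 0‖ / 2 < ‖R.eval 0‖ by linarith), hC,
      hsm.eventually_lt_const (show 0 < ‖R.eval 0‖ / 4 by linarith), hQ0] with n h1 h2 h3 h4
    have h5 : 0 < ‖Q n‖ ^ j := pow_pos (norm_pos_iff.2 h4) j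
    have h6 : ‖P.eval (Q n)‖ = ‖Q n‖ ^ j * ‖R.eval (Q n)‖ := by
      rw [hR, Polynomial.eval_mul, Polynomial.eval_pow, Polynomial.eval_X, norm_mul, norm_pow]
    have h7 : C * ‖Q n ^ k‖ = ‖Q n‖ ^ j * (C * ‖Q n‖ ^ (k - j)) := by
      rw [norm_pow, show k = j + (k - j) by omega, pow_add, Nat.add_sub_cancel_left]
      ring
    rw [h7] at h2
    have h8 := norm_sub_norm_le (P.eval (Q n)) (P.eval (Q n) - u n)
    rw [sub_sub_cancel, norm_sub_rev, h6] at h8
    nlinarith [mul_lt_mul_of_pos_left h1 h5, mul_lt_mul_of_pos_left h3 h5]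

end expansions

end Pool.Agent.KS6_82.Crv
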