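import Mathlib
import Pool.Agent.KS6_82.Crv.Sup

/-!
# Superexponentially convergent orbits
-/

set_option autoImplicit false

namespace Pool.Agent.KS6_82.Crv

open Filter Topology MvPolynomial Pool.Agent.KS6_82.Att Asymptotics

variable {M : ℕ} {z : Fin M → ℂ} {Z : ℕ → Fin M → ℂ}

lemma o_eval {b : ℕ → ℝ} (hZ : Tendsto Z atTop (𝓝 z)) (hb : (fun n => Z n - z) =O[atTop] b)
    (h : MvPolynomial (Fin M) ℂ) : (fun n => eval (Z n) h - eval z h) =O[atTop] b := by
  induction h using MvPolynomial.induction_on with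
  | C a => simpa using isBigO_zero _ _
  | add p q hp hq =>
    refine (hp.add hq).congr_left fun n => ?_
    simp only [map_add]
    ring
  | mul_X h i ih =>
    have h1 : (fun n => Z n i - z i) =O[atTop] b := (isBigO_pi.1 hb) i
    have h2 : (fun n => Z n i) =O[atTop] fun _ => (1 : ℝ) :=
      ((tendsto_pi_nhds.1 hZ) i).isBigO_one ℝ
    have h3 : (fun n => (eval (Z n) h - eval z h) * Z n i) =O[atTop] b := by
      have := ih.mul h2
      simpa using this
    have h4 := h1.const_mul_left (eval z h)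
    refine (h3.add h4).congr_left fun n => ?_
    simp only [map_mul, eval_X]
    ring

lemma o_sq {b : ℕ → ℝ} (hZ : Tendsto Z atTop (𝓝 z)) (hb : (fun n => Z n - z) =O[atTop] b)
    (h : MvPolynomial (Fin M) ℂ) (hh : h ∈ mz z ^ 2) :
    (fun n => eval (Z n) h) =O[atTop] fun n => b n ^ 2 := by
  rw [pow_two] at hh
  refine Submodule.mul_induction_on hh ?_ ?_
  · intro a ha c hc
    have h1 := o_eval hZ hb a
    have h2 := o_eval hZ hb c
    rw [mem_mz.1 ha] at h1
    rw [mem_mz.1 hc] at h2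
    simp only [sub_zero] at h1 h2
    have := h1.mul h2
    simp_rw [map_mul, pow_two]
    exact this
  · intro x y hx hy
    simp_rw [map_add]
    exact hx.add hy

/-- expansions of polynomials -/
lemma qe_eval {Q : ℕ → ℂ} (hQ : Tendsto Q atTop (𝓝 0)) {k : ℕ}
    (hZ : ∀ i, QE Q k fun n => Z n i - z i) (h : MvPolynomial (Fin M) ℂ) :
    QE Q k fun n => eval (Z n) h := by
  induction h using MvPolynomial.induction_on with
  | C a => simpa using QE.const k a
  | add p q hp hq =>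
    simp_rw [map_add]
    exact hp.add hq
  | mul_X h i ih =>
    have h2 := (hZ i).add (QE.const k (z i))
    have h3 := ih.mul hQ h2
    convert h3 using 1
    funext n
    simp only [map_mul, eval_X]
    ring

lemma qe_sq {Q : ℕ → ℂ} (hQ : Tendsto Q atTop (𝓝 0)) {k : ℕ} (hk : 1 ≤ k)
    (hZt : Tendsto Z atTop (𝓝 z)) (hb : (fun n => Z n - z) =O[atTop] fun n => ‖Q n‖)
    (hZ : ∀ i, QE Q k fun n => Z n i - z i) (h : MvPolynomial (Fin M) ℂ) (hh : h ∈ mz z ^ 2) :
    QE Q (k + 1) fun n => eval (Z n) h := by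
  rw [pow_two] at hh
  refine Submodule.mul_induction_on hh ?_ ?_
  · intro a ha c hc
    have h1 := o_eval hZt hb a
    have h2 := o_eval hZt hb c
    rw [mem_mz.1 ha] at h1
    rw [mem_mz.1 hc] at h2
    simp only [sub_zero, isBigO_norm_right] at h1 h2
    simp_rw [map_mul]
    exact QE.mul_small hk hQ (qe_eval hQ hZ a) (qe_eval hQ hZ c) h1 h2
  · intro x y hx hy
    simp_rw [map_add]
    exact hx.add hy

lemma QE.lin {Q : ℕ → ℂ} {k : ℕ} {w : ℕ → Fin M → ℂ} (hw : ∀ i, QE Q k fun n => w n i)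
    (T : Module.End ℂ (Fin M → ℂ)) (i : Fin M) : QE Q k fun n => T (w n) i := by
  have h2 : (fun n => T (w n) i) = fun n => ∑ j, w n j * T (Pi.single j 1) i := by
    funext n
    exact lin_apply T (w n) i
  rw [h2]
  apply QE.fsum
  intro j _
  have := (hw j).smul (T (Pi.single j 1) i)
  convert this using 1
  funext n
  ring

lemma QE.linf {Q : ℕ → ℂ} {k : ℕ} {w : ℕ → Fin M → ℂ} (hw : ∀ i, QE Q k fun n => w n i)
    (T : (Fin M → ℂ) →ₗ[ℂ] ℂ) : QE Q k fun n => T (w n) := by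
  have h2 : (fun n => T (w n)) = fun n => ∑ j, w n j * T (Pi.single j 1) := by
    funext n
    have h := LinearMap.pi_apply_eq_sum_univ T (w n)
    rw [h]
    apply Finset.sum_congr rfl
    intro j _
    rw [smul_eq_mul]
    congr 2
    funext k
    rw [Pi.single_apply]
    simp only [eq_comm]
  rw [h2]
  apply QE.fsum
  intro j _
  have := (hw j).smul (T (Pi.single j 1))
  convert this using 1
  funext n
  ring

variable {G : Fin M → MvPolynomial (Fin M) ℂ}

/-- The coordinate along the kernel dominates. -/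
lemma kernel_dominates (hz : ∀ i, eval z (G i) = z i)
    (hrec : ∀ n, Z (n + 1) = vl G (Z n)) (hZt : Tendsto Z atTop (𝓝 z))
    (hsup : ∀ σ > (0 : ℝ), ∃ A : ℝ, ∀ n, ‖Z n - z‖ ≤ A * σ ^ n) (hne : ∀ n, Z n ≠ z)
    {q : (Fin M → ℂ) →ₗ[ℂ] ℂ} {e₀ : Fin M → ℂ} {S : Module.End ℂ (Fin M → ℂ)}
    (h1 : ∀ w, w = q w • e₀ + S (linT z G w)) (h2 : ∀ w, q (linT z G w) = 0) :
    (∀ᶠ n in atTop, ‖Z n - z‖ ≤ 2 * ‖e₀‖ * ‖q (Z n - z)‖) ∧
      (fun n => Z (n + 1) - z - linT z G (Z n - z)) =O[atTop] (fun n => ‖Z n - z‖ ^ 2) := by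
  set T := linT z G with hT
  set w : ℕ → Fin M → ℂ := fun n => Z n - z with hw
  set E : ℕ → Fin M → ℂ := fun n => w (n + 1) - T (w n) with hE
  have hEO : E =O[atTop] (fun n => ‖w n‖ ^ 2) := by
    rw [isBigO_pi]
    intro i
    have h3 := o_sq hZt (b := fun n => ‖w n‖) (isBigO_norm_right.2 (isBigO_refl _ _)) _ (taylor z (G i))
    refine h3.congr_left fun n => ?_
    simp only [hE, hw, hT, Pi.sub_apply, linT_apply, hrec, map_sub, hz, eval_C, map_sum, map_mul,
      eval_X, mul_sub, Finset.sum_sub_distrib]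
    rfl
  refine ⟨?_, hEO⟩
  obtain ⟨C, hC0, hC⟩ := hEO.exists_pos
  rw [isBigOWith_iff] at hC
  -- bounds for the linear maps
  set s := ‖LinearMap.toContinuousLinearMap S‖ + 1 with hs
  have hs0 : 0 < s := by positivity
  have hSv : ∀ v, ‖S v‖ ≤ s * ‖v‖ := fun v =>
    ((LinearMap.toContinuousLinearMap S).le_opNorm v).trans
      (mul_le_mul_of_nonneg_right (by linarith) (norm_nonneg _))
  set a := ‖LinearMap.toContinuousLinearMap q‖ with ha
  have ha0 : 0 ≤ a := norm_nonneg _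
  have hqv : ∀ v, ‖q v‖ ≤ a * ‖v‖ := fun v => (LinearMap.toContinuousLinearMap q).le_opNorm v
  set C' := (1 + a * ‖e₀‖) * C with hC'
  have hC'0 : 0 < C' := by positivity
  have hCC' : C ≤ C' := by
    rw [hC']
    have : 0 ≤ a * ‖e₀‖ * C := by positivity
    nlinarith
  have hwt : Tendsto (fun n => C' * ‖w n‖) atTop (𝓝 0) := by
    have h3 : Tendsto w atTop (𝓝 0) := by
      rw [hw]
      exact tendsto_sub_nhds_zero_iff.2 hZt
    have := h3.norm.const_mul C'
    simpa using this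
  have hev := (hwt.eventually_lt_const (show (0 : ℝ) < 1 / (8 * s) by positivity)).and hC
  obtain ⟨N, hN⟩ := eventually_atTop.1 hev
  have hwne : ∀ n, 0 < ‖w n‖ := fun n => norm_pos_iff.2 (sub_ne_zero.2 (hne n))
  -- `p n = S (T (w n))`
  have hp : ∀ n, w n - q (w n) • e₀ = S (T (w n)) := fun n => by
    have := h1 (w n)
    nth_rewrite 1 [this]
    abel
  have key : ∀ n ≥ N, ‖w n‖ < 2 * ‖S (T (w n))‖ →
      ‖w (n + 1)‖ < 2 * ‖S (T (w (n + 1)))‖ ∧ ‖w n‖ ≤ 4 * s * ‖w (n + 1)‖ := by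
    intro n hn hlt
    obtain ⟨h3, h4⟩ := hN n hn
    rw [Real.norm_of_nonneg (by positivity)] at h4
    have hwn := hwne n
    have h5 : ‖w n‖ < 2 * (s * ‖T (w n)‖) := hlt.trans_le (by
      have := hSv (T (w n)); linarith)
    have h6 : w (n + 1) = T (w n) + E n := by simp only [hE]; abel
    have h7 : q (w (n + 1)) = q (E n) := by rw [h6, map_add, h2, zero_add]
    have h8 : S (T (w (n + 1))) = T (w n) + (E n - q (E n) • e₀) := by
      rw [← hp, h7, h6]
      abel
    have h9 : ‖E n - q (E n) • e₀‖ ≤ C' * ‖w n‖ ^ 2 := by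
      refine (norm_sub_le _ _).trans ?_
      rw [norm_smul]
      have h10 := hqv (E n)
      have h11 : ‖q (E n)‖ * ‖e₀‖ ≤ a * ‖E n‖ * ‖e₀‖ :=
        mul_le_mul_of_nonneg_right h10 (norm_nonneg _)
      calc ‖E n‖ + ‖q (E n)‖ * ‖e₀‖ ≤ (1 + a * ‖e₀‖) * ‖E n‖ := by nlinarith
        _ ≤ (1 + a * ‖e₀‖) * (C * ‖w n‖ ^ 2) :=
            mul_le_mul_of_nonneg_left h4 (by positivity)
        _ = C' * ‖w n‖ ^ 2 := by rw [hC']; ring
    have h10 : C' * ‖w n‖ ^ 2 < 1 / (8 * s) * ‖w n‖ := by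
      rw [pow_two, ← mul_assoc]
      exact mul_lt_mul_of_pos_right h3 hwn
    have h11 : 1 / (8 * s) * ‖w n‖ * (8 * s) = ‖w n‖ := by field_simp
    have h12 : ‖q (E n) • e₀‖ ≤ C' * ‖w n‖ ^ 2 := by
      rw [norm_smul]
      have h13 := hqv (E n)
      have h14 : ‖q (E n)‖ * ‖e₀‖ ≤ a * ‖E n‖ * ‖e₀‖ :=
        mul_le_mul_of_nonneg_right h13 (norm_nonneg _)
      have h15 : a * ‖E n‖ * ‖e₀‖ ≤ a * (C * ‖w n‖ ^ 2) * ‖e₀‖ := by
        apply mul_le_mul_of_nonneg_right _ (norm_nonneg _)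
        exact mul_le_mul_of_nonneg_left h4 ha0
      have h16 : 0 ≤ C * ‖w n‖ ^ 2 := by positivity
      rw [hC']
      nlinarith
    have h13 : ‖T (w n)‖ ≤ ‖S (T (w (n + 1)))‖ + ‖E n - q (E n) • e₀‖ := by
      have : T (w n) = S (T (w (n + 1))) - (E n - q (E n) • e₀) := by rw [h8]; abel
      rw [this]
      exact norm_sub_le _ _
    have h14 : ‖T (w n)‖ ≤ ‖w (n + 1)‖ + ‖E n‖ := by
      have : T (w n) = w (n + 1) - E n := by rw [h6]; abel
      rw [this]
      exact norm_sub_le _ _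
    have h15 : ‖w (n + 1)‖ ≤ ‖S (T (w (n + 1)))‖ + ‖q (E n) • e₀‖ := by
      have : w (n + 1) = S (T (w (n + 1))) + q (E n) • e₀ := by rw [← hp, h7]; abel
      rw [this]
      have h16 := norm_add_le (S (T (w (n + 1)))) (q (E n) • e₀)
      rw [← this]
      rw [← this] at h16
      exact h16
    have h16 : ‖E n‖ ≤ C' * ‖w n‖ ^ 2 := h4.trans (mul_le_mul_of_nonneg_right hCC' (by positivity))
    set X := ‖w n‖ with hX
    set e := 1 / (8 * s) * X with he
    -- `X < 2 s t`, `e * 8 s = X`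
    have he0 : 0 < e := by positivity
    have h17 : 4 * e < ‖T (w n)‖ := by
      have : 4 * e * (2 * s) < ‖T (w n)‖ * (2 * s) := by
        have e1 : 4 * e * (2 * s) = X := by rw [← h11]; ring
        rw [e1]
        linarith
      exact lt_of_mul_lt_mul_right this (by positivity)
    constructor
    · linarith
    · have h18 : 2 * e ≤ ‖w (n + 1)‖ := by linarith
      have h19 : 2 * e * (4 * s) ≤ ‖w (n + 1)‖ * (4 * s) := mul_le_mul_of_nonneg_right h18 (by positivity)
      have e1 : 2 * e * (4 * s) = X := by rw [← h11]; ring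
      rw [e1] at h19
      linarith
  -- eventually not in the cone
  have hnot : ∀ n ≥ N, ¬ ‖w n‖ < 2 * ‖S (T (w n))‖ := by
    intro n hn hlt
    have hall : ∀ k, ‖w (n + k)‖ < 2 * ‖S (T (w (n + k)))‖ ∧ ‖w n‖ ≤ (4 * s) ^ k * ‖w (n + k)‖ := by
      intro k
      induction k with
      | zero => exact ⟨hlt, by simp⟩
      | succ k ih =>
        obtain ⟨h3, h4⟩ := ih
        obtain ⟨h5, h6⟩ := key (n + k) (by omega) h3
        refine ⟨h5, h4.trans ?_⟩
        rw [pow_succ, mul_assoc]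
        exact mul_le_mul_of_nonneg_left h6 (by positivity)
    obtain ⟨A, hA⟩ := hsup (1 / (8 * s)) (by positivity)
    have h3 : ∀ k : ℕ, ‖w n‖ ≤ (A * (1 / (8 * s)) ^ n) * (1 / 2) ^ k := by
      intro k
      refine (hall k).2.trans ?_
      refine (mul_le_mul_of_nonneg_left (hA (n + k)) (by positivity)).trans (le_of_eq ?_)
      rw [pow_add]
      have h4 : (4 * s) ^ k * (1 / (8 * s)) ^ k = (1 / 2) ^ k := by
        rw [← mul_pow]
        congr 1
        field_simp
        norm_num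
      calc (4 * s) ^ k * (A * ((1 / (8 * s)) ^ n * (1 / (8 * s)) ^ k)) =
          A * (1 / (8 * s)) ^ n * ((4 * s) ^ k * (1 / (8 * s)) ^ k) := by ring
        _ = _ := by rw [h4]
    have h4 : Tendsto (fun k : ℕ => (A * (1 / (8 * s)) ^ n) * (1 / 2 : ℝ) ^ k) atTop (𝓝 0) := by
      have := (tendsto_pow_atTop_nhds_zero_of_lt_one (by norm_num : (0 : ℝ) ≤ 1 / 2)
        (by norm_num)).const_mul (A * (1 / (8 * s)) ^ n)
      simpa using this
    have h5 := ge_of_tendsto' h4 h3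
    exact absurd (hwne n) (not_lt.2 h5)
  filter_upwards [eventually_ge_atTop N] with n hn
  have h3 := not_lt.1 (hnot n hn)
  have h4 : ‖w n‖ ≤ ‖q (w n) • e₀‖ + ‖S (T (w n))‖ := by
    have := h1 (w n)
    nth_rewrite 1 [this]
    exact norm_add_le _ _
  rw [norm_smul] at h4
  have h5 : ‖w n‖ ≤ 2 * ‖e₀‖ * ‖q (w n)‖ := by nlinarith
  exact h5

end Pool.Agent.KS6_82.Crv
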