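import Mathlib
import Pool.Agent.KS6_82.Crv.Orb

/-!
# Expansions of superexponentially convergent orbits
-/

set_option autoImplicit false

namespace Pool.Agent.KS6_82.Crv

open Filter Topology MvPolynomial Pool.Agent.KS6_82.Att Asymptotics

variable {M : ℕ} {z : Fin M → ℂ} {Z : ℕ → Fin M → ℂ} {G : Fin M → MvPolynomial (Fin M) ℂ}

theorem orbit_expansions (hz : ∀ i, eval z (G i) = z i)
    (hrec : ∀ n, Z (n + 1) = vl G (Z n)) (hZt : Tendsto Z atTop (𝓝 z))
    (hsup : ∀ σ > (0 : ℝ), ∃ A : ℝ, ∀ n, ‖Z n - z‖ ≤ A * σ ^ n) (hne : ∀ n, Z n ≠ z)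
    {q : (Fin M → ℂ) →ₗ[ℂ] ℂ} {e₀ : Fin M → ℂ} {S : Module.End ℂ (Fin M → ℂ)}
    (h1 : ∀ w, w = q w • e₀ + S (linT z G w)) (h2 : ∀ w, q (linT z G w) = 0) :
    Tendsto (fun n => q (Z n - z)) atTop (𝓝 0) ∧ (∀ᶠ n in atTop, q (Z n - z) ≠ 0) ∧
      (fun n => q (Z (n + 1) - z)) =O[atTop] (fun n => q (Z n - z) ^ 2) ∧
      ∀ k i, QE (fun n => q (Z n - z)) k fun n => Z n i - z i := by
  obtain ⟨hdom, hE⟩ := kernel_dominates hz hrec hZt hsup hne h1 h2
  set T := linT z G with hT
  set w : ℕ → Fin M → ℂ := fun n => Z n - z with hw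
  set Q : ℕ → ℂ := fun n => q (w n) with hQdef
  set E : ℕ → Fin M → ℂ := fun n => w (n + 1) - T (w n) with hEdef
  have hwt : Tendsto w atTop (𝓝 0) := tendsto_sub_nhds_zero_iff.2 hZt
  have hqc : Continuous q := LinearMap.continuous_of_finiteDimensional q
  have hQ : Tendsto Q atTop (𝓝 0) := by
    have := (hqc.tendsto 0).comp hwt
    rwa [map_zero] at this
  have hQ0 : ∀ᶠ n in atTop, Q n ≠ 0 := by
    filter_upwards [hdom] with n hn h
    have h3 : ‖w n‖ ≤ 0 := by
      have : ‖q (Z n - z)‖ = 0 := by rw [norm_eq_zero]; exact h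
      rw [this, mul_zero] at hn
      exact hn
    exact hne n (sub_eq_zero.1 (norm_le_zero_iff.1 h3))
  have hwO : w =O[atTop] fun n => ‖Q n‖ := by
    refine IsBigO.of_bound (2 * ‖e₀‖) ?_
    filter_upwards [hdom] with n hn
    rwa [norm_norm]
  have hwQ : ∀ i, (fun n => w n i) =O[atTop] Q := fun i => by
    have := (isBigO_pi.1 hwO) i
    exact isBigO_norm_right.1 this
  have hEQ : E =O[atTop] fun n => ‖Q n‖ ^ 2 := hE.trans (by
    have := (isBigO_norm_left.2 hwO).pow 2
    exact this)
  have hQs : ∀ n, Q (n + 1) = q (E n) := by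
    intro n
    have h6 : w (n + 1) = T (w n) + E n := by simp only [hEdef]; abel
    simp only [hQdef]
    rw [h6, map_add, h2, zero_add]
  have hqO : (fun n => Q (n + 1)) =O[atTop] fun n => Q n ^ 2 := by
    simp_rw [hQs]
    have h3 : (fun n => q (E n)) =O[atTop] E := by
      refine IsBigO.of_bound ‖LinearMap.toContinuousLinearMap q‖ ?_
      filter_upwards with n
      exact (LinearMap.toContinuousLinearMap q).le_opNorm (E n)
    have h4 := h3.trans hEQ
    refine h4.trans ?_
    refine IsBigO.of_bound 1 ?_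
    filter_upwards with n
    rw [norm_pow, norm_pow, norm_norm, one_mul]
  refine ⟨hQ, hQ0, hqO, ?_⟩
  have hk : ∀ k : ℕ, ∀ i, QE Q (k + 1) fun n => w n i := by
    intro k
    induction k with
    | zero =>
      intro i
      apply QE.of_o
      simpa using hwQ i
    | succ k ih =>
      have hEk : ∀ i, QE Q (k + 1 + 1) fun n => E n i := by
        intro i
        have h3 := qe_sq hQ (Nat.succ_le_succ (Nat.zero_le k)) hZt hwO ih _ (taylor z (G i))
        convert h3 using 1
        funext n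
        simp only [hEdef, hw, hT, Pi.sub_apply, linT_apply, hrec, map_sub, hz, eval_C, map_sum,
          map_mul, eval_X, mul_sub, Finset.sum_sub_distrib]
        rfl
      have hQk : QE Q (k + 1 + 1) fun n => Q (n + 1) := by
        simp_rw [hQs]
        exact QE.linf hEk q
      have hws : ∀ i, QE Q (k + 1 + 1) fun n => w (n + 1) i := fun i =>
        (ih i).shift hQ hqO (Nat.succ_le_succ (Nat.zero_le k)) hQk
      have hTw : ∀ i, QE Q (k + 1 + 1) fun n => T (w n) i := by
        intro i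
        have := (hws i).sub (hEk i)
        convert this using 1
        funext n
        simp only [hEdef, Pi.sub_apply]
        ring
      intro i
      have h4 := ((QE.self (Q := Q) (k + 1 + 1)).smul (e₀ i)).add (QE.lin hTw S i)
      convert h4 using 1
      funext n
      have h5 := congrFun (h1 (w n)) i
      rw [h5]
      simp only [Pi.add_apply, Pi.smul_apply, smul_eq_mul, hQdef]
      ring
  intro k i
  exact (hk k i).mono hQ (Nat.le_succ k)

/-- The class of an orbit which converges superexponentially. -/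
theorem sup_class {S : Set (MvPolynomial (Fin M) ℂ)} (hS : ∀ g ∈ S, ∃ e : ℕ, g.IsHomogeneous e)
    (hdim : ringKrullDim (MvPolynomial (Fin M) ℂ ⧸ Ideal.span S) ≤ 2) {D : ℕ} (hD : 1 ≤ D)
    (hG : ∀ i, (G i).IsHomogeneous D) (hz0 : z ≠ 0) (hz : vl G z = z)
    (hrec : ∀ n, Z (n + 1) = vl G (Z n)) (hZt : Tendsto Z atTop (𝓝 z))
    (hsup : ∀ σ > (0 : ℝ), ∃ A : ℝ, ∀ n, ‖Z n - z‖ ≤ A * σ ^ n) (hSZ : SZ (linT z G)) :
    (∀ᶠ n in atTop, ∀ h ∈ S, eval (Z n) h = 0) ∨ (∀ᶠ n in atTop, ¬ ∀ h ∈ S, eval (Z n) h = 0) := by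
  classical
  by_cases hne : ∀ n, Z n ≠ z
  swap
  · -- the orbit is eventually constant
    push Not at hne
    obtain ⟨n₀, hn₀⟩ := hne
    have hconst : ∀ n ≥ n₀, Z n = z := by
      intro n hn
      induction n, hn using Nat.le_induction with
      | base => exact hn₀
      | succ n _ ih => rw [hrec, ih, hz]
    by_cases h : ∀ h ∈ S, eval z h = 0
    · left
      filter_upwards [eventually_ge_atTop n₀] with n hn
      rw [hconst n hn]
      exact h
    · right
      filter_upwards [eventually_ge_atTop n₀] with n hn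
      rw [hconst n hn]
      exact h
  obtain ⟨q, e₀, Sl, h1, h2⟩ := hSZ
  have hz' : ∀ i, eval z (G i) = z i := fun i => congrFun hz i
  obtain ⟨hQ, hQ0, hqO, hexp⟩ := orbit_expansions hz' hrec hZt hsup hne h1 h2
  set Q : ℕ → ℂ := fun n => q (Z n - z) with hQdef
  have hev : ∀ h : MvPolynomial (Fin M) ℂ, ∀ k, QE Q k fun n => eval (Z n) h := fun h k =>
    qe_eval hQ (hexp k) h
  have hdich : ∀ h : MvPolynomial (Fin M) ℂ, (∀ k : ℕ, (fun n => eval (Z n) h) =O[atTop] fun n => Q n ^ k) ∨
      ∃ (j : ℕ) (c : ℝ), 0 < c ∧ ∀ᶠ n in atTop, c * ‖Q n‖ ^ j ≤ ‖eval (Z n) h‖ := fun h =>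
    q_dichotomy hQ hQ0 (hev h)
  have hnot : ∀ u : ℕ → ℂ, (∀ k : ℕ, u =O[atTop] fun n => Q n ^ k) → ∀ (j : ℕ) (c : ℝ), 0 < c →
      ¬ ∀ᶠ n in atTop, c * ‖Q n‖ ^ j ≤ ‖u n‖ := by
    intro u hu j c hc h
    obtain ⟨C, hC⟩ := (hu (j + 1)).bound
    have h3 : Tendsto (fun n => C * ‖Q n‖) atTop (𝓝 0) := by
      have := hQ.norm.const_mul C
      simpa using this
    obtain ⟨n, h4, h5, h6, h7⟩ := (h.and (hC.and (hQ0.and (h3.eventually_lt_const hc)))).exists
    have h8 : 0 < ‖Q n‖ ^ j := pow_pos (norm_pos_iff.2 h6) j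
    rw [norm_pow, pow_succ] at h5
    nlinarith [mul_lt_mul_of_pos_left h7 h8]
  let J : Ideal (MvPolynomial (Fin M) ℂ) :=
    { carrier := {h | ∀ k : ℕ, (fun n => eval (Z n) h) =O[atTop] fun n => Q n ^ k}
      add_mem' := by
        intro a b ha hb k
        have := (ha k).add (hb k)
        refine this.congr_left fun n => ?_
        rw [map_add]
      zero_mem' := by
        intro k
        simpa using isBigO_zero _ _
      smul_mem' := by
        intro a b hb k
        have h3 := ((hev a 0).bdd hQ).mul (hb k)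
        simp only [one_mul] at h3
        refine h3.congr_left fun n => ?_
        rw [smul_eq_mul, map_mul] }
  have hJmem : ∀ h, h ∈ J ↔ ∀ k : ℕ, (fun n => eval (Z n) h) =O[atTop] fun n => Q n ^ k := fun h => Iff.rfl
  have hbig : ∀ h, h ∉ J → ∃ (j : ℕ) (c : ℝ), 0 < c ∧ ∀ᶠ n in atTop, c * ‖Q n‖ ^ j ≤ ‖eval (Z n) h‖ :=
    fun h hh => (hdich h).resolve_left hh
  have hJp : J.IsPrime := by
    constructor
    · intro htop
      have h3 : (1 : MvPolynomial (Fin M) ℂ) ∈ J := by rw [htop]; trivial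
      refine hnot _ ((hJmem 1).1 h3) 0 1 one_pos ?_
      filter_upwards with n
      simp
    · intro a b hab
      by_contra hcon
      push Not at hcon
      obtain ⟨ha, hb⟩ := hcon
      obtain ⟨j, c, hc, h3⟩ := hbig a ha
      obtain ⟨j', c', hc', h4⟩ := hbig b hb
      refine hnot _ ((hJmem _).1 hab) (j + j') (c * c') (mul_pos hc hc') ?_
      filter_upwards [h3, h4] with n h5 h6
      rw [map_mul, norm_mul, pow_add]
      calc c * c' * (‖Q n‖ ^ j * ‖Q n‖ ^ j') = (c * ‖Q n‖ ^ j) * (c' * ‖Q n‖ ^ j') := by ring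
        _ ≤ _ := mul_le_mul h5 h6 (by positivity) (norm_nonneg _)
  refine curve_lemma hS hdim hG hrec hJp ?_ ?_ hz0 ?_ ?_
  · intro h hh k
    have h3 : (fun n => eval (Z n) (phi G h)) = fun n => eval (Z (n + 1)) h := by
      funext n
      rw [eval_phi, hrec]
      rfl
    rw [h3]
    have h4 : (fun n => eval (Z (n + 1)) h) =O[atTop] fun n => Q (n + 1) ^ k :=
      (hh k).comp_tendsto (tendsto_add_atTop_nat 1)
    refine h4.trans ?_
    have h5 := hqO.pow k
    simp_rw [← pow_mul] at h5
    exact h5.trans (o_pow_mono hQ (by omega))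
  · intro h hh
    obtain ⟨j, c, hc, h3⟩ := hbig h hh
    filter_upwards [h3, hQ0] with n h4 h5 h6
    rw [h6, norm_zero] at h4
    exact absurd h4 (not_le.2 (mul_pos hc (pow_pos (norm_pos_iff.2 h5) j)))
  · intro h hh
    rw [mem_mz]
    have h3 : Tendsto (fun n => eval (Z n) h) atTop (𝓝 (eval z h)) :=
      ((continuous_eval h).tendsto z).comp hZt
    have h4 : Tendsto (fun n => eval (Z n) h) atTop (𝓝 0) := by
      have h5 := hh 1
      simp only [pow_one] at h5
      exact h5.trans_tendsto hQ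
    exact tendsto_nhds_unique h3 h4
  · by_contra hcon
    push Not at hcon
    obtain ⟨i0, hi0⟩ : ∃ i, z i ≠ 0 := by
      by_contra h
      push Not at h
      exact hz0 (funext h)
    have hcr : ∀ i, (X i * C (z i0) - X i0 * C (z i) : MvPolynomial (Fin M) ℂ) ∈ J := by
      intro i
      refine hcon _ 1 ?_ ?_
      · have e1 := (isHomogeneous_X ℂ i).mul (isHomogeneous_C (Fin M) (z i0))
        have e2 := (isHomogeneous_X ℂ i0).mul (isHomogeneous_C (Fin M) (z i))
        exact e1.sub e2
      · simp only [map_sub, map_mul, eval_X, eval_C]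
        ring
    -- `q z = 0`
    have hqz : q z = 0 := by
      have h3 := h2 z
      rw [euler hG hz, map_smul, smul_eq_mul, mul_eq_zero] at h3
      rcases h3 with h3 | h3
      · exfalso
        have : D ≠ 0 := by omega
        exact this (by exact_mod_cast h3)
      · exact h3
    set v : ℕ → Fin M → ℂ := fun n i => (Z n i * z i0 - Z n i0 * z i) / z i0 with hv
    have hvq : ∀ n, q (Z n - z) = q (v n) := by
      intro n
      have h3 : Z n - z = v n + ((Z n i0 - z i0) / z i0) • z := by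
        funext i
        simp only [hv, Pi.sub_apply, Pi.add_apply, Pi.smul_apply, smul_eq_mul]
        field_simp
        ring
      rw [h3, map_add, map_smul, hqz, smul_zero, add_zero]
    have hvO : v =O[atTop] fun n => Q n ^ 2 := by
      rw [isBigO_pi]
      intro i
      have h3 := ((hJmem _).1 (hcr i) 2).const_mul_left (z i0)⁻¹
      refine h3.congr_left fun n => ?_
      simp only [hv, map_sub, map_mul, eval_X, eval_C]
      field_simp
    have hqv : (fun n => q (v n)) =O[atTop] v := by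
      refine IsBigO.of_bound ‖LinearMap.toContinuousLinearMap q‖ ?_
      filter_upwards with n
      exact (LinearMap.toContinuousLinearMap q).le_opNorm (v n)
    have hQ2 : Q =O[atTop] fun n => Q n ^ 2 := by
      have : Q = fun n => q (v n) := funext hvq
      rw [this]
      rw [this] at hvO
      exact hqv.trans hvO
    obtain ⟨C, hC⟩ := hQ2.bound
    have h3 : Tendsto (fun n => C * ‖Q n‖) atTop (𝓝 0) := by
      have := hQ.norm.const_mul C
      simpa using this
    obtain ⟨n, h4, h5, h6⟩ := (hC.and (hQ0.and (h3.eventually_lt_const one_pos))).exists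
    have h7 : 0 < ‖Q n‖ := norm_pos_iff.2 h5
    rw [norm_pow, pow_two] at h4
    nlinarith

end Pool.Agent.KS6_82.Crv
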