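import Mathlib
import Pool.Agent.KS6_82.Crv.Exp

/-!
# One residue class
-/

set_option autoImplicit false

namespace Pool.Agent.KS6_82.Crv

open Filter Topology MvPolynomial Pool.Agent.KS6_82.Att Asymptotics

variable {M : ℕ} {z : Fin M → ℂ}

/-- The projective distance to `z` is superexponentially small. -/
def Super (X : ℕ → Fin M → ℂ) (z : Fin M → ℂ) : Prop :=
  ∀ σ > (0 : ℝ), ∃ C : ℝ, ∀ n, ∃ s : ℂ, ‖s • X n - z‖ ≤ C * σ ^ n

lemma bd_norm {v : ℕ → Fin M → ℂ} {ρ : ℝ} (hρ : 0 ≤ ρ) (h : ∀ i, Bd ρ fun n => v n i) :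
    ∃ C : ℝ, ∀ n, ‖v n‖ ≤ C * ρ ^ n := by
  have h1 : ∀ i, ∃ C : ℝ, 0 ≤ C ∧ ∀ n, ‖v n i‖ ≤ C * ρ ^ n := fun i => (h i).nonneg
  choose C hC0 hC using h1
  refine ⟨∑ i, C i, fun n => ?_⟩
  rw [pi_norm_le_iff_of_nonneg (mul_nonneg (Finset.sum_nonneg fun i _ => hC0 i) (pow_nonneg hρ n))]
  intro i
  refine (hC i n).trans (mul_le_mul_of_nonneg_right ?_ (pow_nonneg hρ n))
  exact Finset.single_le_sum (f := C) (fun i _ => hC0 i) (Finset.mem_univ i)

lemma super_of_tail {Y : ℕ → Fin M → ℂ} {a : ℕ → ℂ} {n₀ : ℕ}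
    (h : ∀ σ > (0 : ℝ), ∃ A : ℝ, ∀ n, ‖a n • Y (n₀ + n) - z‖ ≤ A * σ ^ n) : Super Y z := by
  intro σ hσ
  obtain ⟨A, hA⟩ := h σ hσ
  have hA0 : 0 ≤ A := by
    have := (norm_nonneg _).trans (hA 0)
    simpa using this
  refine ⟨A / σ ^ n₀ + ∑ j ∈ Finset.range n₀, ‖z‖ / σ ^ j, fun n => ?_⟩
  have hsum0 : 0 ≤ ∑ j ∈ Finset.range n₀, ‖z‖ / σ ^ j :=
    Finset.sum_nonneg fun j _ => by positivity
  by_cases hn : n₀ ≤ n
  · obtain ⟨j, rfl⟩ := Nat.exists_eq_add_of_le hn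
    refine ⟨a j, (hA j).trans ?_⟩
    rw [add_mul, pow_add]
    have h3 : A / σ ^ n₀ * (σ ^ n₀ * σ ^ j) = A * σ ^ j := by
      rw [← mul_assoc, div_mul_cancel₀ _ (pow_pos hσ n₀).ne']
    rw [h3]
    have : 0 ≤ (∑ j ∈ Finset.range n₀, ‖z‖ / σ ^ j) * (σ ^ n₀ * σ ^ j) := by positivity
    linarith
  · refine ⟨0, ?_⟩
    rw [zero_smul, zero_sub, norm_neg]
    have h3 : ‖z‖ / σ ^ n ≤ ∑ j ∈ Finset.range n₀, ‖z‖ / σ ^ j :=
      Finset.single_le_sum (f := fun j => ‖z‖ / σ ^ j) (fun j _ => by positivity)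
        (Finset.mem_range.2 (not_le.1 hn))
    have h4 : ‖z‖ / σ ^ n * σ ^ n = ‖z‖ := div_mul_cancel₀ _ (pow_pos hσ n).ne'
    have h5 : 0 ≤ A / σ ^ n₀ * σ ^ n := by positivity
    rw [add_mul]
    have h6 := mul_le_mul_of_nonneg_right h3 (pow_nonneg hσ.le n)
    rw [h4] at h6
    linarith

theorem class0 {Γ : Set ℂ} (hΓ : ∀ a ∈ Γ, ∀ b ∈ Γ, a * b ∈ Γ) (h0 : ∀ a ∈ Γ, a ≠ 0)
    (h1 : ∀ a ∈ Γ, ‖a‖ < 1) (hC : ∀ a ∈ Γ, ∀ b ∈ Γ, ‖a‖ = ‖b‖ → a = b)
    {F : Fin M → MvPolynomial (Fin M) ℂ} {D : ℕ} (hD : 2 ≤ D) (hF : ∀ i, (F i).IsHomogeneous D)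
    (hz0 : z ≠ 0) (hz : vl F z = z) {Y : ℕ → Fin M → ℂ} (hY : ∀ n, Y (n + 1) = vl F (Y n))
    {s : ℕ → ℂ} {K r : ℝ} (hr0 : 0 < r) (hr1 : r < 1) (hs : ∀ n, ‖s n • Y n - z‖ ≤ K * r ^ n)
    (l : List ℂ) (hlΓ : ∀ ν ∈ l, ‖ν‖ < 1 → ν = 0 ∨ ν ∈ Γ)
    (hT : Polynomial.aeval (linT z F) (l.map fun ν => Polynomial.X - Polynomial.C ν).prod = 0)
    (hSZ : SZ (linT z F) ∨ ¬ Super Y z)
    {S : Set (MvPolynomial (Fin M) ℂ)} (hS : ∀ g ∈ S, ∃ e : ℕ, g.IsHomogeneous e)
    (hdim : ringKrullDim (MvPolynomial (Fin M) ℂ ⧸ Ideal.span S) ≤ 2) :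
    (∀ᶠ n in atTop, ∀ h ∈ S, eval (Y n) h = 0) ∨ (∀ᶠ n in atTop, ¬ ∀ h ∈ S, eval (Y n) h = 0) := by
  classical
  obtain ⟨n₀, a, B, ha0, har, haB⟩ := exists_orbit hD hF hz0 hz hY hr0 hr1 hs
  set Z : ℕ → Fin M → ℂ := fun n => a n • Y (n₀ + n) with hZ
  have hZr : ∀ n, Z (n + 1) = vl F (Z n) := har
  -- it suffices to treat `Z`
  suffices hmain : (∀ᶠ n in atTop, ∀ h ∈ S, eval (Z n) h = 0) ∨
      (∀ᶠ n in atTop, ¬ ∀ h ∈ S, eval (Z n) h = 0) by
    have hiff : ∀ n, (∀ h ∈ S, eval (Z n) h = 0) ↔ ∀ h ∈ S, eval (Y (n₀ + n)) h = 0 := by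
      intro n
      have h2 : ∀ h ∈ S, eval (Z n) h = 0 ↔ eval (Y (n₀ + n)) h = 0 := by
        intro h hh
        obtain ⟨e, he⟩ := hS h hh
        rw [hZ]
        simp only
        rw [eval_hom he, mul_eq_zero]
        constructor
        · rintro (h1 | h1)
          · exact absurd h1 (pow_ne_zero _ (ha0 n))
          · exact h1
        · exact Or.inr
      exact ⟨fun H h hh => (h2 h hh).1 (H h hh), fun H h hh => (h2 h hh).2 (H h hh)⟩
    simp_rw [hiff] at hmain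
    rcases hmain with h2 | h2
    · left
      obtain ⟨K, hK⟩ := eventually_atTop.1 h2
      filter_upwards [eventually_ge_atTop (n₀ + K)] with n hn
      obtain ⟨j, rfl⟩ := Nat.exists_eq_add_of_le hn
      rw [add_assoc]
      exact hK (K + j) (by omega)
    · right
      obtain ⟨K, hK⟩ := eventually_atTop.1 h2
      filter_upwards [eventually_ge_atTop (n₀ + K)] with n hn
      obtain ⟨j, rfl⟩ := Nat.exists_eq_add_of_le hn
      rw [add_assoc]
      exact hK (K + j) (by omega)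
  obtain ⟨r', hr', hr'1, hr'2⟩ := exists_radius r hr1 hr0 l
  have hr'0 : 0 < r' := hr0.trans hr'
  have hZ' : ∀ i, Bd r' fun n => Z n i - z i := fun i =>
    Bd.mono ⟨B, fun n => haB n i⟩ hr0.le hr'.le
  have hzi : ∀ i, eval z (F i) = z i := fun i => congrFun hz i
  have hreci : ∀ n i, Z (n + 1) i = eval (Z n) (F i) := fun n i => congrFun (hZr n) i
  have hlim : ∀ g : MvPolynomial (Fin M) ℂ, Tendsto (fun n => eval (Z n) g) atTop (𝓝 (eval z g)) := by
    intro g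
    have := (bd_eval hr'0.le hr'1.le hZ' g).tendsto hr'0.le hr'1
    exact tendsto_sub_nhds_zero_iff.1 this
  have hZt : Tendsto Z atTop (𝓝 z) := by
    rw [tendsto_pi_nhds]
    intro i
    simpa using hlim (X i)
  have hexp := ex_orbit hΓ h0 h1 hr'0 hr'1 hzi hreci hZ' l (fun ν hν k hk => hr'2 k hk ν hν) hlΓ hT
  have hbd1 : ∀ g : MvPolynomial (Fin M) ℂ, Bd 1 fun n => eval (Z n) g := by
    intro g
    obtain ⟨K, hK⟩ := (hlim g).norm.bddAbove_range
    refine ⟨K, fun n => ?_⟩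
    rw [one_pow, mul_one]
    exact hK ⟨n, rfl⟩
  set J := smallIdeal Z hbd1 with hJdef
  have hJmem : ∀ h, h ∈ J ↔ ∀ σ > (0 : ℝ), Bd σ fun n => eval (Z n) h := fun h => Iff.rfl
  have hJz : J ≤ mz z := by
    intro h hh
    rw [mem_mz]
    have h3 : Tendsto (fun n => eval (Z n) h) atTop (𝓝 0) :=
      (hh (1 / 2) (by norm_num)).tendsto (by norm_num) (by norm_num)
    exact tendsto_nhds_unique (hlim h) h3
  have hbig : ∀ h, h ∉ J → ∃ γ : ℝ, 0 < γ ∧ ∃ c > (0 : ℝ), ∀ᶠ n in atTop, c * γ ^ n ≤ ‖eval (Z n) h‖ := by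
    intro h hh
    by_cases hzh : eval z h = 0
    · have hu : ∀ σ > (0 : ℝ), ∃ ρ, 0 ≤ ρ ∧ ρ < σ ∧ Ex Γ ρ fun n => eval (Z n) h := by
        intro σ hσ
        obtain ⟨k, hk⟩ := exists_pow_lt_of_lt_one hσ hr'1
        refine ⟨r' ^ (k + 1), pow_nonneg hr'0.le _, ?_, ?_⟩
        · refine lt_of_le_of_lt ?_ hk
          exact pow_le_pow_of_le_one hr'0.le hr'1.le (Nat.le_succ k)
        · have := ex_eval hΓ h1 (pow_nonneg hr'0.le (k + 1)) (pow_le_one₀ hr'0.le hr'1.le) (hexp k) h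
          simpa [hzh] using this
      rcases dichotomy hC hu with hsmall | ⟨γ, _, hγ0, c, hc, hlow⟩
      · exact absurd hsmall hh
      · exact ⟨‖γ‖, hγ0, c, hc, hlow⟩
    · refine ⟨1, one_pos, ‖eval z h‖ / 2, by have := norm_pos_iff.2 hzh; positivity, ?_⟩
      have h3 := (hlim h).norm.eventually_const_lt
        (show ‖eval z h‖ / 2 < ‖eval z h‖ by have := norm_pos_iff.2 hzh; linarith)
      filter_upwards [h3] with n hn
      rw [one_pow, mul_one]
      exact hn.le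
  have hnot : ∀ u : ℕ → ℂ, (∀ σ > (0 : ℝ), Bd σ u) → ∀ γ : ℝ, 0 < γ → ∀ c > (0 : ℝ),
      ¬ ∀ᶠ n in atTop, c * γ ^ n ≤ ‖u n‖ := by
    intro u hu γ hγ c hc h
    obtain ⟨A, hA⟩ := hu (γ / 2) (by positivity)
    have h3 : Tendsto (fun n : ℕ => A * (1 / 2 : ℝ) ^ n) atTop (𝓝 0) := by
      have := (tendsto_pow_atTop_nhds_zero_of_lt_one (by norm_num : (0 : ℝ) ≤ 1 / 2)
        (by norm_num)).const_mul A
      simpa using this
    obtain ⟨n, h4, h5⟩ := (h.and (h3.eventually_lt_const hc)).exists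
    have h6 := h4.trans (hA n)
    have h7 : A * (γ / 2) ^ n = (A * (1 / 2) ^ n) * γ ^ n := by
      rw [div_eq_mul_one_div, mul_pow]
      ring
    rw [h7] at h6
    have h8 := mul_lt_mul_of_pos_right h5 (pow_pos hγ n)
    linarith
  have hJp : J.IsPrime := by
    constructor
    · intro htop
      have h3 : (1 : MvPolynomial (Fin M) ℂ) ∈ J := by rw [htop]; trivial
      refine hnot _ ((hJmem 1).1 h3) 1 one_pos 1 one_pos ?_
      filter_upwards with n
      simp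
    · intro x y hxy
      by_contra hcon
      push Not at hcon
      obtain ⟨hx, hy⟩ := hcon
      obtain ⟨γ, hγ, c, hc, h3⟩ := hbig x hx
      obtain ⟨γ', hγ', c', hc', h4⟩ := hbig y hy
      refine hnot _ ((hJmem _).1 hxy) (γ * γ') (mul_pos hγ hγ') (c * c') (mul_pos hc hc') ?_
      filter_upwards [h3, h4] with n h5 h6
      rw [map_mul, norm_mul, mul_pow]
      calc c * c' * (γ ^ n * γ' ^ n) = (c * γ ^ n) * (c' * γ' ^ n) := by ring
        _ ≤ _ := mul_le_mul h5 h6 (by positivity) (norm_nonneg _)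
  have hJs : ∀ h ∈ J, phi F h ∈ J := by
    intro g hg σ hσ
    have := (hg σ hσ).sh
    convert this using 1
    funext n
    rw [eval_phi, sh_apply]
    congr 2
    funext i
    exact (hreci n i).symm
  by_cases hns : ∃ (g : MvPolynomial (Fin M) ℂ) (e : ℕ), g.IsHomogeneous e ∧ eval z g = 0 ∧ g ∉ J
  · refine curve_lemma hS hdim hF hZr hJp hJs ?_ hz0 hJz hns
    intro h hh
    obtain ⟨γ, hγ, c, hc, h3⟩ := hbig h hh
    filter_upwards [h3] with n h4 h6
    rw [h6, norm_zero] at h4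
    exact absurd h4 (not_le.2 (mul_pos hc (pow_pos hγ n)))
  -- superexponential convergence
  push Not at hns
  obtain ⟨i0, hi0⟩ : ∃ i, z i ≠ 0 := by
    by_contra h
    push Not at h
    exact hz0 (funext h)
  have hcr : ∀ i, (X i * C (z i0) - X i0 * C (z i) : MvPolynomial (Fin M) ℂ) ∈ J := by
    intro i
    refine hns _ 1 ?_ ?_
    · have e1 := (isHomogeneous_X ℂ i).mul (isHomogeneous_C (Fin M) (z i0))
      have e2 := (isHomogeneous_X ℂ i0).mul (isHomogeneous_C (Fin M) (z i))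
      exact e1.sub e2
    · simp only [map_sub, map_mul, eval_X, eval_C]
      ring
  have hrad : (F i0 - C (z i0 / z i0 ^ D) * X i0 ^ D : MvPolynomial (Fin M) ℂ) ∈ J := by
    refine hns _ D ?_ ?_
    · have e1 := (isHomogeneous_C (Fin M) (z i0 / z i0 ^ D)).mul ((isHomogeneous_X ℂ i0).pow D)
      rw [zero_add, one_mul] at e1
      exact (hF i0).sub e1
    · simp only [map_sub, map_mul, eval_X, eval_C, map_pow, hzi]
      rw [div_mul_cancel₀ _ (pow_ne_zero D hi0), sub_self]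
  have hXi0 : (X i0 - C (z i0) : MvPolynomial (Fin M) ℂ) ∈ J := by
    by_contra hcon
    obtain ⟨γ, hγ, c, hc, h3⟩ := hbig _ hcon
    set κ : ℕ → ℂ := fun n => Z n i0 / z i0 with hκ
    have hκt : Tendsto κ atTop (𝓝 1) := by
      have := ((tendsto_pi_nhds.1 hZt) i0).div_const (z i0)
      rwa [div_self hi0] at this
    -- the factor
    have hfac : Tendsto (fun n => ∑ j ∈ Finset.range D, κ n ^ j) atTop (𝓝 (D : ℂ)) := by
      have h4 : Tendsto (fun n => ∑ j ∈ Finset.range D, κ n ^ j) atTop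
          (𝓝 (∑ j ∈ Finset.range D, (1 : ℂ) ^ j)) :=
        tendsto_finsetSum _ fun j _ => hκt.pow j
      simpa using h4
    have hD2 : (2 : ℝ) ≤ D := by exact_mod_cast hD
    have hfac2 := hfac.norm.eventually_const_lt (u := 3 / 2) (by
      rw [Complex.norm_natCast]; linarith)
    -- recursion
    obtain ⟨A, hA⟩ := ((hJmem _).1 hrad) (γ / 2) (by positivity)
    have hA0 : 0 ≤ A := by
      have := (norm_nonneg _).trans (hA 0)
      simpa using this
    have hsm : Tendsto (fun n : ℕ => A * (1 / 2 : ℝ) ^ n) atTop (𝓝 0) := by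
      have := (tendsto_pow_atTop_nhds_zero_of_lt_one (by norm_num : (0 : ℝ) ≤ 1 / 2)
        (by norm_num)).const_mul A
      simpa using this
    have hgrow : ∀ᶠ n in atTop, ‖Z n i0 - z i0‖ ≤ ‖Z (n + 1) i0 - z i0‖ ∧ 0 < ‖Z n i0 - z i0‖ := by
      filter_upwards [h3, hfac2, hsm.eventually_lt_const (show 0 < c / 2 by positivity)] with n h4 h5 h6
      simp only [map_sub, eval_X, eval_C] at h4
      have h7 : 0 < γ ^ n := pow_pos hγ n
      refine ⟨?_, (mul_pos hc h7).trans_le h4⟩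
      have h8 := hA n
      simp only [map_sub, map_mul, eval_X, eval_C, map_pow] at h8
      set η := eval (Z n) (F i0) - z i0 / z i0 ^ D * Z n i0 ^ D with hη
      have h9 : Z (n + 1) i0 - z i0 = (Z n i0 - z i0) * (∑ j ∈ Finset.range D, κ n ^ j) + η := by
        have h10 : (κ n - 1) * (∑ j ∈ Finset.range D, κ n ^ j) = κ n ^ D - 1 := mul_geom_sum _ _
        have h11 : Z n i0 - z i0 = z i0 * (κ n - 1) := by
          rw [hκ]
          field_simp
        have h12 : z i0 / z i0 ^ D * Z n i0 ^ D = z i0 * κ n ^ D := by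
          rw [hκ]
          simp only [div_pow]
          field_simp
        rw [h11, mul_assoc, h10, hη, h12, hreci]
        ring
      have h13 : A * (γ / 2) ^ n = (A * (1 / 2) ^ n) * γ ^ n := by
        rw [div_eq_mul_one_div, mul_pow]
        ring
      rw [h13] at h8
      have h14 : ‖η‖ ≤ 1 / 2 * ‖Z n i0 - z i0‖ := by
        have := mul_lt_mul_of_pos_right h6 h7
        linarith
      have h15 : ‖(Z n i0 - z i0) * (∑ j ∈ Finset.range D, κ n ^ j)‖ ≤ ‖Z (n + 1) i0 - z i0‖ + ‖η‖ := by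
        have : (Z n i0 - z i0) * (∑ j ∈ Finset.range D, κ n ^ j) = (Z (n + 1) i0 - z i0) - η := by
          rw [h9]
          ring
        rw [this]
        exact norm_sub_le _ _
      rw [norm_mul] at h15
      have h16 := mul_le_mul_of_nonneg_left h5.le (norm_nonneg (Z n i0 - z i0))
      linarith
    obtain ⟨N, hN⟩ := eventually_atTop.1 hgrow
    have hmono : ∀ n ≥ N, ‖Z N i0 - z i0‖ ≤ ‖Z n i0 - z i0‖ := by
      intro n hn
      induction n, hn using Nat.le_induction with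
      | base => exact le_rfl
      | succ n hn ih => exact ih.trans (hN n hn).1
    have hz1 : Tendsto (fun n => ‖Z n i0 - z i0‖) atTop (𝓝 0) := by
      have := (tendsto_sub_nhds_zero_iff.2 ((tendsto_pi_nhds.1 hZt) i0)).norm
      simpa using this
    have h4 := ge_of_tendsto hz1 (eventually_atTop.2 ⟨N, hmono⟩)
    exact absurd (hN N le_rfl).2 (not_lt.2 h4)
  have hXi : ∀ i, (X i - C (z i) : MvPolynomial (Fin M) ℂ) ∈ J := by
    intro i
    have h3 : (X i - C (z i) : MvPolynomial (Fin M) ℂ) = C (z i0)⁻¹ * ((X i * C (z i0) - X i0 * C (z i)) +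
        C (z i) * (X i0 - C (z i0))) := by
      have h4 : (C (z i0)⁻¹ * C (z i0) : MvPolynomial (Fin M) ℂ) = 1 := by
        rw [← C_mul, inv_mul_cancel₀ hi0, C_1]
      linear_combination (-(X i) + C (z i)) * h4
    rw [h3]
    exact Ideal.mul_mem_left _ _ (Ideal.add_mem _ (hcr i) (Ideal.mul_mem_left _ _ hXi0))
  have hsup : ∀ σ > (0 : ℝ), ∃ A : ℝ, ∀ n, ‖Z n - z‖ ≤ A * σ ^ n := by
    intro σ hσ
    apply bd_norm hσ.le
    intro i
    have := (hJmem _).1 (hXi i) σ hσ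
    convert this using 1
    funext n
    simp
  rcases hSZ with hSZ | hSZ
  · exact sup_class hS hdim (by omega) hF hz0 hz hZr hZt hsup hSZ
  · exact absurd (super_of_tail hsup) hSZ

end Pool.Agent.KS6_82.Crv
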