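import Mathlib
import Pool.Agent.KS6_82.Crv.Cls
import Pool.Agent.KS6_82.Att.Near

/-!
# Transfer between residue classes
-/

set_option autoImplicit false

namespace Pool.Agent.KS6_82.Crv

open Filter Topology MvPolynomial Pool.Agent.KS6_82.Att Asymptotics

variable {M : ℕ}

/-! ### Lipschitz bounds -/

lemma lip (h : MvPolynomial (Fin M) ℂ) (w : Fin M → ℂ) (R : ℝ) : ∃ K : ℝ, 0 ≤ K ∧
    ∀ x : Fin M → ℂ, ‖x - w‖ ≤ R → ‖eval x h - eval w h‖ ≤ K * ‖x - w‖ := by
  induction h using MvPolynomial.induction_on with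
  | C a => exact ⟨0, le_rfl, fun x _ => by simp⟩
  | add p q hp hq =>
    obtain ⟨K, hK0, hK⟩ := hp
    obtain ⟨L, hL0, hL⟩ := hq
    refine ⟨K + L, add_nonneg hK0 hL0, fun x hx => ?_⟩
    rw [map_add, map_add, add_sub_add_comm, add_mul]
    exact (norm_add_le _ _).trans (add_le_add (hK x hx) (hL x hx))
  | mul_X h i ih =>
    obtain ⟨K, hK0, hK⟩ := ih
    refine ⟨K * (|R| + ‖w‖) + ‖eval w h‖, by positivity, fun x hx => ?_⟩
    have h1 : ‖x i - w i‖ ≤ ‖x - w‖ := norm_le_pi_norm (x - w) i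
    have h2 : ‖w i‖ ≤ ‖w‖ := norm_le_pi_norm w i
    have h3 : ‖x i‖ ≤ |R| + ‖w‖ := by
      have h4 : x i = (x i - w i) + w i := by ring
      rw [h4]
      refine (norm_add_le _ _).trans (add_le_add (h1.trans (hx.trans (le_abs_self R))) h2)
    have h5 : eval x (h * X i) - eval w (h * X i) =
        (eval x h - eval w h) * x i + eval w h * (x i - w i) := by
      simp only [map_mul, eval_X]
      ring
    rw [h5]
    refine (norm_add_le _ _).trans ?_
    rw [norm_mul, norm_mul]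
    have h6 := mul_le_mul (hK x hx) h3 (norm_nonneg _) (by positivity)
    have h7 := mul_le_mul_of_nonneg_left h1 (norm_nonneg (eval w h))
    calc ‖eval x h - eval w h‖ * ‖x i‖ + ‖eval w h‖ * ‖x i - w i‖ ≤
        K * ‖x - w‖ * (|R| + ‖w‖) + ‖eval w h‖ * ‖x - w‖ := add_le_add h6 h7
      _ = _ := by ring

lemma lipV (f : Fin M → MvPolynomial (Fin M) ℂ) (t : ℕ) (w : Fin M → ℂ) (R : ℝ) : ∃ K : ℝ, 0 ≤ K ∧
    ∀ x : Fin M → ℂ, ‖x - w‖ ≤ R → ‖(vl f)^[t] x - (vl f)^[t] w‖ ≤ K * ‖x - w‖ := by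
  have h1 : ∀ i, ∃ K : ℝ, 0 ≤ K ∧ ∀ x : Fin M → ℂ, ‖x - w‖ ≤ R →
      ‖eval x (itp f t i) - eval w (itp f t i)‖ ≤ K * ‖x - w‖ := fun i => lip _ _ _
  choose K hK0 hK using h1
  refine ⟨∑ i, K i, Finset.sum_nonneg fun i _ => hK0 i, fun x hx => ?_⟩
  rw [← vl_itp, ← vl_itp, pi_norm_le_iff_of_nonneg
    (mul_nonneg (Finset.sum_nonneg fun i _ => hK0 i) (norm_nonneg _))]
  intro i
  refine (hK i x hx).trans (mul_le_mul_of_nonneg_right ?_ (norm_nonneg _))
  exact Finset.single_le_sum (f := K) (fun i _ => hK0 i) (Finset.mem_univ i)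

lemma lipAll (f : Fin M → MvPolynomial (Fin M) ℂ) (T : ℕ) (w : Fin M → ℂ) (R : ℝ) : ∃ K : ℝ, 0 ≤ K ∧
    ∀ t ≤ T, ∀ x : Fin M → ℂ, ‖x - w‖ ≤ R → ‖(vl f)^[t] x - (vl f)^[t] w‖ ≤ K * ‖x - w‖ := by
  choose K hK0 hK using fun t => lipV f t w R
  refine ⟨∑ t ∈ Finset.range (T + 1), K t, Finset.sum_nonneg fun t _ => hK0 t, fun t ht x hx => ?_⟩
  refine (hK t x hx).trans (mul_le_mul_of_nonneg_right ?_ (norm_nonneg _))
  exact Finset.single_le_sum (f := K) (fun i _ => hK0 i) (Finset.mem_range.2 (by omega))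

/-! ### Derivatives along a cycle -/

lemma linT_comp {G H K : Fin M → MvPolynomial (Fin M) ℂ} (h : vl K = vl G ∘ vl H) (z : Fin M → ℂ) :
    linT z K = linT (vl H z) G * linT z H := by
  have h1 := hasFDerivAt_vl K z
  have h2 := (hasFDerivAt_vl G (vl H z)).comp z (hasFDerivAt_vl H z)
  rw [h] at h1
  have h3 := h1.unique h2
  refine LinearMap.ext fun v => ?_
  exact DFunLike.congr_fun h3 v

lemma vl_one (f : Fin M → MvPolynomial (Fin M) ℂ) (m : ℕ) :
    vl (itp f (m + 1)) = vl (itp f m) ∘ vl f := by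
  funext x
  rw [Function.comp_apply, vl_itp, vl_itp, Function.iterate_succ_apply]

lemma vl_one' (f : Fin M → MvPolynomial (Fin M) ℂ) (m : ℕ) :
    vl (itp f (m + 1)) = vl f ∘ vl (itp f m) := by
  funext x
  rw [Function.comp_apply, vl_itp, vl_itp, Function.iterate_succ_apply']

lemma cycle_AB (f : Fin M → MvPolynomial (Fin M) ℂ) {l : ℕ} (hl : 1 ≤ l) {z : Fin M → ℂ}
    (hz : (vl f)^[l] z = z) : ∃ A B : Module.End ℂ (Fin M → ℂ),
    linT z (itp f l) = A * B ∧ linT (vl f z) (itp f l) = B * A := by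
  obtain ⟨m, rfl⟩ := Nat.exists_eq_add_of_le' hl
  refine ⟨linT (vl f z) (itp f m), linT z f, linT_comp (vl_one f m) z, ?_⟩
  rw [linT_comp (vl_one' f m) (vl f z), vl_itp, ← Function.iterate_succ_apply, hz]

lemma mult_AB {f : Fin M → MvPolynomial (Fin M) ℂ} {l : ℕ} (hl : 1 ≤ l) {z : Fin M → ℂ}
    (hz : (vl f)^[l] z = z) :
    (linT (vl f z) (itp f l)).charpoly = (linT z (itp f l)).charpoly := by
  obtain ⟨A, B, h1, h2⟩ := cycle_AB f hl hz
  rw [h1, h2]
  have h3 : ∀ C D : Module.End ℂ (Fin M → ℂ), (C * D).charpoly = (D * C).charpoly := by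
    intro C D
    rw [← LinearMap.charpoly_toMatrix (C * D) (Pi.basisFun ℂ (Fin M)),
      ← LinearMap.charpoly_toMatrix (D * C) (Pi.basisFun ℂ (Fin M)), LinearMap.toMatrix_mul,
      LinearMap.toMatrix_mul, Matrix.charpoly_mul_comm]
  exact h3 B A

lemma kill_AB (A B : Module.End ℂ (Fin M → ℂ)) {P : Polynomial ℂ}
    (h : Polynomial.aeval (A * B) P = 0) : Polynomial.aeval (B * A) (Polynomial.X * P) = 0 := by
  have h1 : ∀ Q : Polynomial ℂ, Polynomial.aeval (B * A) Q * B = B * Polynomial.aeval (A * B) Q := by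
    intro Q
    induction Q using Polynomial.induction_on' with
    | add p q hp hq => rw [map_add, map_add, add_mul, mul_add, hp, hq]
    | monomial k b =>
      rw [Polynomial.aeval_monomial, Polynomial.aeval_monomial]
      have h4 : (B * A) ^ k * B = B * (A * B) ^ k := by
        induction k with
        | zero => simp
        | succ k ih => rw [pow_succ', mul_assoc, ih, pow_succ']; simp only [mul_assoc]
      rw [mul_assoc, h4, ← mul_assoc, ← mul_assoc, Algebra.commutes]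
  rw [mul_comm, map_mul, Polynomial.aeval_X, ← mul_assoc, h1, h, mul_zero, zero_mul]

lemma kill_step {f : Fin M → MvPolynomial (Fin M) ℂ} {l : ℕ} (hl : 1 ≤ l) {z : Fin M → ℂ}
    (hz : (vl f)^[l] z = z) {P : Polynomial ℂ} (h : Polynomial.aeval (linT z (itp f l)) P = 0) :
    Polynomial.aeval (linT (vl f z) (itp f l)) (Polynomial.X * P) = 0 := by
  obtain ⟨A, B, h1, h2⟩ := cycle_AB f hl hz
  rw [h1] at h
  rw [h2]
  exact kill_AB A B h

lemma fix_iter {f : Fin M → MvPolynomial (Fin M) ℂ} {l : ℕ} {z : Fin M → ℂ}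
    (hz : (vl f)^[l] z = z) (b : ℕ) : (vl f)^[l] ((vl f)^[b] z) = (vl f)^[b] z := by
  rw [← Function.iterate_add_apply, add_comm, Function.iterate_add_apply, hz]

lemma mult_iter {f : Fin M → MvPolynomial (Fin M) ℂ} {l : ℕ} (hl : 1 ≤ l) {z : Fin M → ℂ}
    (hz : (vl f)^[l] z = z) (b : ℕ) :
    (linT ((vl f)^[b] z) (itp f l)).charpoly = (linT z (itp f l)).charpoly := by
  induction b with
  | zero => rfl
  | succ b ih => rw [Function.iterate_succ_apply', mult_AB hl (fix_iter hz b), ih]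

lemma kill_iter {f : Fin M → MvPolynomial (Fin M) ℂ} {l : ℕ} (hl : 1 ≤ l) {z : Fin M → ℂ}
    (hz : (vl f)^[l] z = z) {P : Polynomial ℂ} (h : Polynomial.aeval (linT z (itp f l)) P = 0)
    (b : ℕ) : Polynomial.aeval (linT ((vl f)^[b] z) (itp f l)) (Polynomial.X ^ b * P) = 0 := by
  induction b with
  | zero => simpa using h
  | succ b ih =>
    rw [Function.iterate_succ_apply', pow_succ', mul_assoc]
    exact kill_step hl (fix_iter hz b) ih

lemma ne_iter {f : Fin M → MvPolynomial (Fin M) ℂ} {d l : ℕ} (hd : 2 ≤ d) (hl : 1 ≤ l)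
    (hf : ∀ i, (f i).IsHomogeneous d) {z : Fin M → ℂ} (hz0 : z ≠ 0)
    (hz : (vl f)^[l] z = z) (b : ℕ) : (vl f)^[b] z ≠ 0 := by
  intro h
  apply hz0
  have h1 : ∀ k, (vl f)^[b + k] z = 0 := by
    intro k
    induction k with
    | zero => exact h
    | succ k ih =>
      rw [← add_assoc, Function.iterate_succ_apply', ih]
      have := vl_smul hf 0 (0 : Fin M → ℂ)
      rwa [smul_zero, zero_pow (by omega), zero_smul] at this
  have h2 : (vl f)^[l * b] z = z := by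
    rw [Function.iterate_mul]
    exact Function.iterate_fixed hz b
  obtain ⟨k, hk⟩ := Nat.exists_eq_add_of_le (Nat.le_mul_of_pos_left b hl)
  rw [← h2, hk]
  exact h1 k

lemma smul_iter {f : Fin M → MvPolynomial (Fin M) ℂ} {d : ℕ}
    (hf : ∀ i, (f i).IsHomogeneous d) (t : ℕ) (s : ℂ) (x : Fin M → ℂ) :
    (vl f)^[t] (s • x) = s ^ d ^ t • (vl f)^[t] x := by
  rw [← vl_itp, ← vl_itp, vl_smul (itp_hom hf t)]

/-! ### Convergence -/

lemma conv_map {f : Fin M → MvPolynomial (Fin M) ℂ} {d : ℕ} (hf : ∀ i, (f i).IsHomogeneous d)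
    {z : Fin M → ℂ} {x : ℕ → Fin M → ℂ} {s : ℕ → ℂ} {K r : ℝ} (hr0 : 0 < r) (hr1 : r < 1)
    (hs : ∀ n, ‖s n • x n - z‖ ≤ K * r ^ n) (b : ℕ) :
    ∃ (s' : ℕ → ℂ) (K' : ℝ), ∀ n, ‖s' n • (vl f)^[b] (x n) - (vl f)^[b] z‖ ≤ K' * r ^ n := by
  have hK0 : 0 ≤ K := by
    have := (norm_nonneg _).trans (hs 0)
    simpa using this
  obtain ⟨L, hL0, hL⟩ := lipV f b z K
  refine ⟨fun n => s n ^ d ^ b, L * K, fun n => ?_⟩
  have h1 : ‖s n • x n - z‖ ≤ K := (hs n).trans (mul_le_of_le_one_right hK0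
    (pow_le_one₀ hr0.le hr1.le))
  have h2 := hL _ h1
  rw [smul_iter hf] at h2
  refine h2.trans ?_
  rw [mul_assoc]
  exact mul_le_mul_of_nonneg_left (hs n) hL0

/-- Superexponential convergence in one residue class implies superexponential convergence. -/
lemma super_of_class {f : Fin M → MvPolynomial (Fin M) ℂ} {d l q : ℕ} (hl : 1 ≤ l) (hq : 1 ≤ q)
    (hf : ∀ i, (f i).IsHomogeneous d) {z α : Fin M → ℂ} (hz : (vl f)^[l] z = z) (b : ℕ)
    (h : Super (fun n => (vl f)^[l * q * n] ((vl f)^[b] α)) ((vl f)^[b] z)) :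
    Super (fun n => (vl f)^[l * n] α) z := by
  intro σ hσ
  set τ := min σ (1 / 2) with hτ
  have hτ0 : 0 < τ := lt_min hσ (by norm_num)
  have hτ1 : τ ≤ 1 := (min_le_right _ _).trans (by norm_num)
  have hτσ : τ ≤ σ := min_le_left _ _
  obtain ⟨C, hC⟩ := h (τ ^ q) (pow_pos hτ0 q)
  have hC0 : 0 ≤ C := by
    obtain ⟨s, hs⟩ := hC 0
    have := (norm_nonneg _).trans hs
    simpa using this
  obtain ⟨L, hL0, hL⟩ := lipAll f (l * (b + q)) ((vl f)^[b] z) C
  refine ⟨L * (C / τ ^ (q + b)) + ‖z‖ / τ ^ b, fun n => ?_⟩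
  have hpow : τ ^ n ≤ σ ^ n := pow_le_pow_left₀ hτ0.le hτσ n
  have hpos1 : 0 ≤ L * (C / τ ^ (q + b)) := by positivity
  have hpos2 : 0 ≤ ‖z‖ / τ ^ b := by positivity
  suffices h3 : ∃ s : ℂ, ‖s • (vl f)^[l * n] α - z‖ ≤
      (L * (C / τ ^ (q + b)) + ‖z‖ / τ ^ b) * τ ^ n by
    obtain ⟨s, hs⟩ := h3
    exact ⟨s, hs.trans (mul_le_mul_of_nonneg_left hpow (by positivity))⟩
  by_cases hn : n < b
  · refine ⟨0, ?_⟩
    rw [zero_smul, zero_sub, norm_neg, add_mul]
    have h4 : ‖z‖ / τ ^ b * τ ^ b = ‖z‖ := div_mul_cancel₀ _ (pow_pos hτ0 b).ne'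
    have h5 : ‖z‖ / τ ^ b * τ ^ b ≤ ‖z‖ / τ ^ b * τ ^ n :=
      mul_le_mul_of_nonneg_left (pow_le_pow_of_le_one hτ0.le hτ1 hn.le) hpos2
    have h6 : 0 ≤ L * (C / τ ^ (q + b)) * τ ^ n := by positivity
    linarith
  · rw [not_lt] at hn
    set m := (n - b) / q with hm
    have hqm : q * m ≤ n - b := Nat.mul_div_le _ _
    have hqm2 : n - b < q * m + q := by
      have := Nat.lt_mul_div_succ (n - b) (show 0 < q by omega)
      rw [Nat.mul_succ] at this
      exact this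
    -- the remaining number of steps
    have hle : l * q * m + b ≤ l * n := by
      have h1 : l * (q * m) ≤ l * (n - b) := Nat.mul_le_mul_left l hqm
      have h2 : l * (n - b) + l * b = l * n := by rw [← mul_add, Nat.sub_add_cancel hn]
      have h3 : b ≤ l * b := Nat.le_mul_of_pos_left b hl
      rw [mul_assoc]
      omega
    obtain ⟨t, ht⟩ := Nat.exists_eq_add_of_le hle
    have ht' : b + t = l * (n - q * m) := by
      have h1 : l * (n - q * m) + l * (q * m) = l * n := by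
        rw [← mul_add, Nat.sub_add_cancel (by omega)]
      rw [mul_assoc] at ht
      omega
    have htT : t ≤ l * (b + q) := by
      have h1 : l * (n - q * m) ≤ l * (b + q) := Nat.mul_le_mul_left l (by omega)
      omega
    obtain ⟨s, hs⟩ := hC m
    refine ⟨s ^ d ^ t, ?_⟩
    have h4 : (vl f)^[l * n] α = (vl f)^[t] ((vl f)^[l * q * m] ((vl f)^[b] α)) := by
      rw [ht, ← Function.iterate_add_apply, ← Function.iterate_add_apply]
      congr 1
      ring
    have h5 : (vl f)^[t] ((vl f)^[b] z) = z := by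
      rw [← Function.iterate_add_apply, add_comm, ht', Function.iterate_mul]
      exact Function.iterate_fixed hz _
    rw [h4, ← smul_iter hf]
    have h6 : ‖s • (vl f)^[l * q * m] ((vl f)^[b] α) - (vl f)^[b] z‖ ≤ C := by
      refine hs.trans (mul_le_of_le_one_right hC0 ?_)
      exact pow_le_one₀ (pow_nonneg hτ0.le q) (pow_le_one₀ hτ0.le hτ1)
    have h7 := hL t htT _ h6
    rw [h5] at h7
    refine h7.trans ?_
    have h8 : C * (τ ^ q) ^ m ≤ C / τ ^ (q + b) * τ ^ n := by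
      rw [div_mul_eq_mul_div, le_div_iff₀ (pow_pos hτ0 _), mul_assoc]
      apply mul_le_mul_of_nonneg_left _ hC0
      rw [← pow_mul, ← pow_add]
      exact pow_le_pow_of_le_one hτ0.le hτ1 (by omega)
    have h9 : L * (C * (τ ^ q) ^ m) ≤ L * (C / τ ^ (q + b)) * τ ^ n := by
      rw [mul_assoc]
      exact mul_le_mul_of_nonneg_left h8 hL0
    have h10 := mul_le_mul_of_nonneg_left hs hL0
    have h11 : 0 ≤ ‖z‖ / τ ^ b * τ ^ n := by positivity
    rw [add_mul]
    linarith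

/-- Exponential convergence along multiples implies exponential convergence. -/
lemma conv_of_mul {f : Fin M → MvPolynomial (Fin M) ℂ} {d l p : ℕ} (hp : 1 ≤ p)
    (hf : ∀ i, (f i).IsHomogeneous d) {z α : Fin M → ℂ} (hz : (vl f)^[l] z = z)
    {s : ℕ → ℂ} {K : ℝ} (hs : ∀ n, ‖s n • (vl f)^[l * p * n] α - z‖ ≤ K * (1 / 2) ^ n) :
    ∃ (s' : ℕ → ℂ) (K' r : ℝ), 0 < r ∧ r < 1 ∧ ∀ n, ‖s' n • (vl f)^[l * n] α - z‖ ≤ K' * r ^ n := by
  have hK0 : 0 ≤ K := by
    have := (norm_nonneg _).trans (hs 0)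
    simpa using this
  have hp0 : (0 : ℝ) < p := by exact_mod_cast hp
  have hp1 : (1 : ℝ) ≤ p := by exact_mod_cast hp
  set r : ℝ := 1 - 1 / (2 * p) with hr
  have hr2 : 1 / (2 * (p : ℝ)) ≤ 1 / 2 := by
    apply one_div_le_one_div_of_le (by norm_num)
    linarith
  have hr0 : 0 < r := by rw [hr]; linarith
  have hr1 : r < 1 := by
    rw [hr]
    have : 0 < 1 / (2 * (p : ℝ)) := by positivity
    linarith
  have hrp : 1 / 2 ≤ r ^ p := by
    have h1 := one_add_mul_le_pow (a := -(1 / (2 * (p : ℝ)))) (by linarith) p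
    have h2 : 1 + (p : ℝ) * -(1 / (2 * p)) = 1 / 2 := by field_simp; norm_num
    rw [h2, ← sub_eq_add_neg] at h1
    exact h1
  obtain ⟨L, hL0, hL⟩ := lipAll f (l * p) z K
  refine ⟨fun n => s (n / p) ^ d ^ (l * (n % p)), L * K / r ^ p, r, hr0, hr1, fun n => ?_⟩
  have hdiv : p * (n / p) + n % p = n := Nat.div_add_mod n p
  have hmod : n % p < p := Nat.mod_lt _ (by omega)
  have h4 : (vl f)^[l * n] α = (vl f)^[l * (n % p)] ((vl f)^[l * p * (n / p)] α) := by
    rw [← Function.iterate_add_apply]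
    congr 1
    conv_lhs => rw [← hdiv]
    ring
  have h5 : (vl f)^[l * (n % p)] z = z := by
    rw [Function.iterate_mul]
    exact Function.iterate_fixed hz _
  simp only
  rw [h4, ← smul_iter hf]
  have h6 : ‖s (n / p) • (vl f)^[l * p * (n / p)] α - z‖ ≤ K :=
    (hs _).trans (mul_le_of_le_one_right hK0 (pow_le_one₀ (by norm_num) (by norm_num)))
  have h7 := hL (l * (n % p)) (Nat.mul_le_mul_left l hmod.le) _ h6
  rw [h5] at h7
  refine h7.trans ((mul_le_mul_of_nonneg_left (hs _) hL0).trans ?_)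
  rw [← mul_assoc, div_mul_eq_mul_div, le_div_iff₀ (pow_pos hr0 p), mul_assoc]
  apply mul_le_mul_of_nonneg_left _ (mul_nonneg hL0 hK0)
  calc (1 / 2 : ℝ) ^ (n / p) * r ^ p ≤ (r ^ p) ^ (n / p) * r ^ p :=
        mul_le_mul_of_nonneg_right (pow_le_pow_left₀ (by norm_num) hrp _) (pow_nonneg hr0.le _)
    _ = r ^ (p * (n / p) + p) := by rw [← pow_mul, ← pow_add]
    _ ≤ r ^ n := pow_le_pow_of_le_one hr0.le hr1.le (by omega)

end Pool.Agent.KS6_82.Crv
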