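import Mathlib
import Pool.Agent.KS6_82.Crv.Trf

/-!
# Closed sets of dimension at most one
-/

set_option autoImplicit false

namespace Pool.Agent.KS6_82.Crv

open Filter Topology MvPolynomial Pool.Agent.KS6_82.Att

variable {M m : ℕ}

/-- compatibility of the nonzero multipliers -/
def Compat (μ : Fin m → ℂ) : Prop :=
  ∀ a b : Fin m → ℕ, (∀ i, μ i = 0 ∨ 1 ≤ ‖μ i‖ → a i = 0 ∧ b i = 0) →
    ‖∏ i, μ i ^ a i‖ = ‖∏ i, μ i ^ b i‖ → ∃ q : ℕ, 1 ≤ q ∧ (∏ i, μ i ^ a i) ^ q = (∏ i, μ i ^ b i) ^ q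

/-- **The main theorem for closed sets of dimension at most one.** -/
theorem main_curves {f : Fin M → MvPolynomial (Fin M) ℂ} {d l : ℕ} (hd : 2 ≤ d) (hl : 1 ≤ l)
    (hf : ∀ i, (f i).IsHomogeneous d) {z : Fin M → ℂ} (hz0 : z ≠ 0) (hz : (vl f)^[l] z = z)
    {μ : Fin m → ℂ} (hμ : Kills (linT z (itp f l)) z μ)
    (hC : Compat μ) {α : Fin M → ℂ} {s : ℕ → ℂ} {K r : ℝ} (hr : r < 1)
    (hs : ∀ n, ‖s n • (vl f)^[l * n] α - z‖ ≤ K * r ^ n)
    (hSZ : (linT z (itp f l)).charpoly.rootMultiplicity 0 ≤ 1 ∨ ¬ Super (fun n => (vl f)^[l * n] α) z)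
    {S : Set (MvPolynomial (Fin M) ℂ)} (hS : ∀ g ∈ S, ∃ e : ℕ, g.IsHomogeneous e)
    (hdim : ringKrullDim (MvPolynomial (Fin M) ℂ ⧸ Ideal.span S) ≤ 2) :
    FiniteUnionAP {n : ℕ | ∀ g ∈ S, eval ((vl f)^[n] α) g = 0} := by
  classical
  -- a positive rate
  obtain ⟨r', hr'0, hr'1, hs'⟩ : ∃ r' : ℝ, 0 < r' ∧ r' < 1 ∧ ∃ C' : ℝ, ∀ n,
      ‖s n • (vl f)^[l * n] α - z‖ ≤ C' * r' ^ n := by
    have hC0 : 0 ≤ K := by
      have := (norm_nonneg _).trans (hs 0)
      simpa using this
    refine ⟨max r (1 / 2), lt_max_of_lt_right (by norm_num), max_lt hr (by norm_num), K,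
      fun n => ?_⟩
    by_cases hr0 : 0 ≤ r
    · refine (hs n).trans (mul_le_mul_of_nonneg_left ?_ hC0)
      exact pow_le_pow_left₀ hr0 (le_max_left _ _) n
    · rw [not_le] at hr0
      have h1 := (norm_nonneg _).trans (hs 1)
      rw [pow_one] at h1
      have h2 : K = 0 := by nlinarith
      have h3 := hs n
      rw [h2, zero_mul] at h3
      exact h3.trans (mul_nonneg hC0 (pow_nonneg (by positivity) n))
  obtain ⟨C', hs'⟩ := hs'
  have hC'0 : 0 ≤ C' := by
    have := (norm_nonneg _).trans (hs' 0)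
    simpa using this
  -- replace the zero multipliers
  set μ' : Fin m → ℂ := fun i => if μ i = 0 then 1 else μ i with hμ'
  have hμ'0 : ∀ i, μ' i ≠ 0 := by
    intro i
    simp only [hμ']
    split_ifs with h
    · exact one_ne_zero
    · exact h
  have hprod : ∀ a : Fin m → ℕ, (∀ i, μ i = 0 → a i = 0) → ∏ i, μ' i ^ a i = ∏ i, μ i ^ a i := by
    intro a ha
    apply Finset.prod_congr rfl
    intro i _
    simp only [hμ']
    split_ifs with h
    · rw [ha i h, pow_zero, pow_zero]
    · rfl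
  have hC1 : Compatible μ' := by
    intro a b hab hn
    have h1 : ∀ i, μ i = 0 → a i = 0 ∧ b i = 0 := by
      intro i hi
      apply hab i
      simp [hμ', hi]
    rw [hprod a fun i hi => (h1 i hi).1, hprod b fun i hi => (h1 i hi).2] at hn ⊢
    refine hC a b (fun i hi => ?_) hn
    rcases hi with hi | hi
    · exact h1 i hi
    · apply hab i
      simp only [hμ']
      split_ifs with h
      · simp
      · exact hi
  obtain ⟨q, hq1, hq⟩ := exists_exponent μ' hμ'0 hC1
  set L := l * q with hL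
  have hL1 : 1 ≤ L := Nat.mul_pos hl hq1
  set F := itp f L with hF
  set D := d ^ L with hD
  have hD2 : 2 ≤ D := hd.trans (Nat.le_self_pow (by omega) d)
  have hFhom : ∀ i, (F i).IsHomogeneous D := itp_hom hf L
  have hzL : (vl f)^[L] z = z := by
    rw [hL, Function.iterate_mul]
    exact Function.iterate_fixed hz q
  have hzF : vl F z = z := by rw [hF, vl_itp, hzL]
  -- the frequencies
  set Γ : Set ℂ := {γ | ∃ e : Fin m → ℕ, (∃ i, e i ≠ 0) ∧ (∀ i, 1 ≤ ‖μ' i‖ → e i = 0) ∧
    γ = (∏ i, μ' i ^ e i) ^ q} with hΓ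
  have hΓmul : ∀ a ∈ Γ, ∀ b ∈ Γ, a * b ∈ Γ := by
    rintro _ ⟨e, ⟨i, hi⟩, he, rfl⟩ _ ⟨e', _, he', rfl⟩
    refine ⟨e + e', ⟨i, by simp [hi]⟩, fun j hj => by simp [he j hj, he' j hj], ?_⟩
    rw [← mul_pow, ← Finset.prod_mul_distrib]
    simp only [Pi.add_apply, pow_add]
  have hΓ0 : ∀ a ∈ Γ, a ≠ 0 := by
    rintro _ ⟨e, _, _, rfl⟩
    exact pow_ne_zero _ (Finset.prod_ne_zero_iff.2 fun i _ => pow_ne_zero _ (hμ'0 i))
  have hΓ1 : ∀ a ∈ Γ, ‖a‖ < 1 := by
    rintro _ ⟨e, he1, he, rfl⟩
    rw [norm_pow]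
    exact pow_lt_one₀ (norm_nonneg _) (pw_norm_lt he he1) (by omega)
  have hΓC : ∀ a ∈ Γ, ∀ b ∈ Γ, ‖a‖ = ‖b‖ → a = b := by
    rintro _ ⟨e, _, he, rfl⟩ _ ⟨e', _, he', rfl⟩ h
    apply hq e e' fun i hi => ⟨he i hi, he' i hi⟩
    rw [norm_pow, norm_pow] at h
    exact (pow_left_inj₀ (norm_nonneg _) (norm_nonneg _) (by omega)).1 h
  -- the annihilating polynomial at `z`
  set P : Polynomial ℂ := (Polynomial.X - Polynomial.C (D : ℂ)) *
    ∏ i, (Polynomial.X - Polynomial.C (μ i ^ q)) with hP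
  have hLz : linT z (itp f l) z = ((d ^ l : ℕ) : ℂ) • z := by
    apply euler (itp_hom hf l)
    rw [vl_itp, hz]
  have hT : Polynomial.aeval (linT z F) P = 0 := by
    have hk := hμ.pow hLz q
    rw [← linT_iterate f l q z hz] at hk
    refine LinearMap.ext fun v => ?_
    rw [hP, map_mul, Module.End.mul_apply]
    obtain ⟨c, hc⟩ := hk v
    have hc' : Polynomial.aeval (linT z F) (∏ i, (Polynomial.X - Polynomial.C (μ i ^ q))) v =
        c • z := hc
    rw [hc', map_smul, map_sub, Polynomial.aeval_X, Polynomial.aeval_C, LinearMap.sub_apply,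
      euler hFhom hzF, Module.algebraMap_end_apply, sub_self, smul_zero]
    rfl
  -- one class
  have hclass : ∀ b : ℕ,
      (∀ᶠ n in atTop, ∀ h ∈ S, eval ((vl f)^[L * n + b] α) h = 0) ∨
      (∀ᶠ n in atTop, ¬ ∀ h ∈ S, eval ((vl f)^[L * n + b] α) h = 0) := by
    intro b
    set w := (vl f)^[b] z with hw
    set Y : ℕ → Fin M → ℂ := fun n => (vl f)^[L * n] ((vl f)^[b] α) with hY
    have hYr : ∀ n, Y (n + 1) = vl F (Y n) := by
      intro n
      rw [hF, vl_itp, hY]
      simp only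
      rw [← Function.iterate_add_apply _ L]
      congr 1
      ring
    have hwL : (vl f)^[L] w = w := fix_iter hzL b
    have hwF : vl F w = w := by rw [hF, vl_itp, hwL]
    have hw0 : w ≠ 0 := ne_iter hd hl hf hz0 hz b
    obtain ⟨s₁, K₁, hs₁⟩ := conv_map (x := fun n => (vl f)^[L * n] α) (s := fun n => s (q * n))
      hf hr'0 hr'1 (K := C') (fun n => by
        have h1 := hs' (q * n)
        rw [← mul_assoc] at h1
        refine h1.trans (mul_le_mul_of_nonneg_left ?_ hC'0)
        exact pow_le_pow_of_le_one hr'0.le hr'1.le (Nat.le_mul_of_pos_left n hq1)) b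
    have hs₂ : ∀ n, ‖s₁ n • Y n - w‖ ≤ K₁ * r' ^ n := by
      intro n
      have h1 := hs₁ n
      have h2 : Y n = (vl f)^[b] ((vl f)^[L * n] α) := by
        rw [hY]
        simp only
        rw [← Function.iterate_add_apply, ← Function.iterate_add_apply, add_comm]
      rw [h2]
      exact h1
    set lst : List ℂ := (List.replicate b 0) ++ ((D : ℂ) :: List.ofFn fun i => μ i ^ q) with hlst
    have hprodl : (lst.map fun ν => Polynomial.X - Polynomial.C ν).prod = Polynomial.X ^ b * P := by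
      rw [hlst, List.map_append, List.prod_append, List.map_replicate, List.prod_replicate,
        List.map_cons, List.prod_cons, List.map_ofFn, List.prod_ofFn, map_zero, sub_zero]
      rfl
    have hlΓ : ∀ ν ∈ lst, ‖ν‖ < 1 → ν = 0 ∨ ν ∈ Γ := by
      intro ν hν hn
      rcases List.mem_append.1 hν with hν | hν
      · left
        exact List.eq_of_mem_replicate hν
      rcases List.mem_cons.1 hν with rfl | hν
      · exfalso
        rw [Complex.norm_natCast] at hn
        have : (2 : ℝ) ≤ D := by exact_mod_cast hD2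
        linarith
      · obtain ⟨i, rfl⟩ := (List.mem_ofFn' _ _).1 hν
        by_cases hi0 : μ i = 0
        · left
          simp [hi0, show q ≠ 0 by omega]
        · right
          have hi' : μ' i = μ i := by simp [hμ', hi0]
          have hi : ‖μ' i‖ < 1 := by
            rw [hi']
            by_contra h
            rw [norm_pow] at hn
            exact absurd hn (not_lt.2 (one_le_pow₀ (not_lt.1 h)))
          refine ⟨Pi.single i 1, ⟨i, by simp⟩, fun j hj => ?_, ?_⟩
          · rw [Pi.single_apply, if_neg]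
            rintro rfl
            exact absurd hi (not_lt.2 hj)
          · rw [Finset.prod_eq_single i]
            · simp [hi']
            · intro j _ hj
              rw [Pi.single_apply, if_neg hj, pow_zero]
            · intro h
              exact absurd (Finset.mem_univ i) h
    have hTb : Polynomial.aeval (linT w F)
        (lst.map fun ν => Polynomial.X - Polynomial.C ν).prod = 0 := by
      rw [hprodl]
      exact kill_iter hL1 hzL hT b
    have hSZb : SZ (linT w F) ∨ ¬ Super Y w := by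
      rcases hSZ with h | h
      · left
        have h1 : linT w F = linT w (itp f l) ^ q := linT_iterate f l q w (fix_iter hz b)
        rw [h1]
        apply SZ.pow _ hq1
        apply sz_of_mult
        rw [hw, mult_iter hl hz b]
        exact h
      · right
        intro h1
        exact h (super_of_class hl hq1 hf hz b h1)
    have hcl := class0 hΓmul hΓ0 hΓ1 hΓC hD2 hFhom hw0 hwF hYr hr'0 hr'1 hs₂ lst hlΓ hTb hSZb hS hdim
    have e : ∀ n, Y n = (vl f)^[L * n + b] α := by
      intro n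
      rw [hY]
      simp only
      rw [← Function.iterate_add_apply]
    simp_rw [e] at hcl
    exact hcl
  apply ap_of_classes _ L hL1
  intro b _
  exact hclass b

/-- In the plane all closed sets are covered. -/
theorem main_plane {f : Fin 3 → MvPolynomial (Fin 3) ℂ} {d l : ℕ} (hd : 2 ≤ d) (hl : 1 ≤ l)
    (hf : ∀ i, (f i).IsHomogeneous d) {z : Fin 3 → ℂ} (hz0 : z ≠ 0) (hz : (vl f)^[l] z = z)
    {μ : Fin m → ℂ} (hμ : Kills (linT z (itp f l)) z μ)
    (hC : Compat μ) {α : Fin 3 → ℂ} {s : ℕ → ℂ} {K r : ℝ} (hr : r < 1)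
    (hs : ∀ n, ‖s n • (vl f)^[l * n] α - z‖ ≤ K * r ^ n)
    (hSZ : (linT z (itp f l)).charpoly.rootMultiplicity 0 ≤ 1 ∨ ¬ Super (fun n => (vl f)^[l * n] α) z) :
    DMLAt f α := by
  classical
  intro S hS
  by_cases h0 : ∀ g ∈ S, g = 0
  · refine ⟨{(1, 0)}, ?_⟩
    ext n
    simp only [Set.mem_ofPred_eq, Finset.mem_singleton, exists_eq_left, one_mul, add_zero,
      exists_eq', iff_true]
    intro g hg
    rw [h0 g hg, map_zero]
  · push Not at h0
    obtain ⟨g, hg, hg0⟩ := h0
    refine main_curves hd hl hf hz0 hz hμ hC hr hs hSZ hS ?_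
    have h1 := ringKrullDim_succ_le_of_surjective (Ideal.Quotient.mk (Ideal.span S))
      Ideal.Quotient.mk_surjective (r := g) (mem_nonZeroDivisors_of_ne_zero hg0)
      (Ideal.Quotient.eq_zero_iff_mem.2 (Ideal.subset_span hg))
    have h2 : ringKrullDim (MvPolynomial (Fin 3) ℂ) = 3 := by
      rw [MvPolynomial.ringKrullDim_of_isNoetherianRing]
      simp
    rw [h2] at h1
    have h3 : ringKrullDim (MvPolynomial (Fin 3) ℂ ⧸ Ideal.span S) + 1 ≤ 2 + 1 := by
      refine h1.trans (le_of_eq ?_)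
      norm_num
    exact ENat.WithBot.add_le_add_one_right_iff.1 h3

end Pool.Agent.KS6_82.Crv
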