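import Mathlib
import Pool.Agent.KS6_82.Crv.Trf
import Pool.Agent.KS6_82.Att.Family

/-!
# An example with a simple eigenvalue zero
-/

set_option autoImplicit false

namespace Pool.Agent.KS6_82.Crv

open Filter Topology MvPolynomial Pool.Agent.KS6_82.Att

variable {N : ℕ}

lemma fam_entry {d : ℕ} (hd : 2 ≤ d) (lam : Fin N → ℂ)
    (Q : Fin (N + 1) → MvPolynomial (Fin (N + 1)) ℂ)
    (hQ1 : ∀ i j, eval e0 (pderiv j (Q i)) = 0) (i j : Fin (N + 1)) :
    eval e0 (pderiv j (fam d lam Q i)) = if j = i then (Fin.cons (d : ℂ) lam : Fin (N + 1) → ℂ) i else 0 := by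
  simp only [fam, map_add, hQ1, add_zero]
  refine Fin.cases ?_ (fun k => ?_) i
  · simp only [Fin.cases_zero]
    rw [Derivation.leibniz_pow, pderiv_X]
    by_cases hj : j = 0
    · subst hj
      simp [e0_zero]
    · rw [if_neg hj, Pi.single_apply, if_neg (Ne.symm hj)]
      simp
  · simp only [Fin.cases_succ]
    rw [Derivation.leibniz, Derivation.leibniz, Derivation.leibniz_pow, pderiv_X, pderiv_X,
      pderiv_C]
    by_cases hj : j = k.succ
    · subst hj
      simp [e0_zero, e0_succ]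
    · rw [if_neg hj]
      have : (Pi.single j 1 : Fin (N + 1) → MvPolynomial (Fin (N + 1)) ℂ) k.succ = 0 := by
        rw [Pi.single_apply, if_neg (Ne.symm hj)]
      rw [this]
      simp [e0_succ]

lemma fam_charpoly {d : ℕ} (hd : 2 ≤ d) (lam : Fin N → ℂ)
    (Q : Fin (N + 1) → MvPolynomial (Fin (N + 1)) ℂ)
    (hQ1 : ∀ i j, eval e0 (pderiv j (Q i)) = 0) :
    (linT e0 (itp (fam d lam Q) 1)).charpoly =
      (Polynomial.X - Polynomial.C (d : ℂ)) * ∏ i, (Polynomial.X - Polynomial.C (lam i)) := by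
  have hit : itp (fam d lam Q) 1 = fam d lam Q := by
    funext i
    show bind₁ X (fam d lam Q i) = _
    rw [bind₁_X_left]
    rfl
  rw [hit, linT, Matrix.charpoly_mulVecLin]
  have h1 : (Matrix.of fun i j => eval e0 (pderiv j (fam d lam Q i))) =
      Matrix.diagonal (Fin.cons (d : ℂ) lam : Fin (N + 1) → ℂ) := by
    ext i j
    rw [Matrix.of_apply, fam_entry hd lam Q hQ1, Matrix.diagonal_apply]
    by_cases h : i = j
    · subst h
      simp
    · rw [if_neg h, if_neg (Ne.symm h)]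
  rw [h1, Matrix.charpoly_diagonal, Fin.prod_univ_succ]
  simp

lemma example_mult {d : ℕ} (hd : 2 ≤ d) {lam : ℂ} (hlam : lam ≠ 0)
    (Q : Fin 3 → MvPolynomial (Fin 3) ℂ)
    (hQ1 : ∀ i j, eval (e0 : Fin 3 → ℂ) (pderiv j (Q i)) = 0) :
    (linT e0 (itp (fam d ![lam, 0] Q) 1)).charpoly.rootMultiplicity 0 ≤ 1 := by
  rw [fam_charpoly hd ![lam, 0] Q hQ1, Fin.prod_univ_two]
  simp only [Matrix.cons_val_zero, Matrix.cons_val_one, map_zero, sub_zero]
  set R : Polynomial ℂ := (Polynomial.X - Polynomial.C (d : ℂ)) * (Polynomial.X - Polynomial.C lam) with hR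
  have hR0 : R.eval 0 ≠ 0 := by
    rw [hR]
    simp only [Polynomial.eval_mul, Polynomial.eval_sub, Polynomial.eval_X, Polynomial.eval_C,
      zero_sub]
    apply mul_ne_zero
    · rw [neg_ne_zero]
      exact_mod_cast (by omega : d ≠ 0)
    · exact neg_ne_zero.2 hlam
  have e : (Polynomial.X - Polynomial.C (d : ℂ)) * ((Polynomial.X - Polynomial.C lam) * Polynomial.X) =
      Polynomial.X * R := by rw [hR]; ring
  rw [e]
  have hne : (Polynomial.X * R : Polynomial ℂ) ≠ 0 := by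
    apply mul_ne_zero Polynomial.X_ne_zero
    rintro h
    rw [h] at hR0
    simp at hR0
  rw [Polynomial.rootMultiplicity_le_iff hne]
  intro h
  rw [map_zero, sub_zero, pow_succ', pow_one] at h
  have h2 := (mul_dvd_mul_iff_left Polynomial.X_ne_zero).1 h
  rw [Polynomial.X_dvd_iff, Polynomial.coeff_zero_eq_eval_zero] at h2
  exact hR0 h2

/-- compatibility holds if there is only one nonzero multiplier of absolute value less than one -/
lemma compat_two (lam : ℂ) (hlam : lam ≠ 0) (h1 : ‖lam‖ < 1) (a b : Fin 2 → ℕ)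
    (hab : ∀ i, (![lam, 0] : Fin 2 → ℂ) i = 0 ∨ 1 ≤ ‖(![lam, 0] : Fin 2 → ℂ) i‖ → a i = 0 ∧ b i = 0)
    (h : ‖∏ i, (![lam, 0] : Fin 2 → ℂ) i ^ a i‖ = ‖∏ i, (![lam, 0] : Fin 2 → ℂ) i ^ b i‖) :
    ∃ q : ℕ, 1 ≤ q ∧ (∏ i, (![lam, 0] : Fin 2 → ℂ) i ^ a i) ^ q =
      (∏ i, (![lam, 0] : Fin 2 → ℂ) i ^ b i) ^ q := by
  obtain ⟨ha, hb⟩ := hab 1 (Or.inl (by simp))
  simp only [Fin.prod_univ_two, Matrix.cons_val_zero, Matrix.cons_val_one, ha, hb, pow_zero,
    mul_one] at h ⊢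
  rw [norm_pow, norm_pow] at h
  have h2 : a 0 = b 0 := (pow_right_injective₀ (norm_pos_iff.2 hlam) h1.ne) h
  exact ⟨1, le_rfl, by rw [h2]⟩

end Pool.Agent.KS6_82.Crv
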